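import Pool.Agent.Helper74.Sl2Ext.Uea

/-!
# The weight system takes values in polynomials in the Casimir element
-/

open Finset Polynomial

namespace Pool.Agent.Helper74.Sl2Ext

/-! ## The Weyl algebra acting on polynomials -/

/-- Multiplication by `X`. -/
noncomputable def opX : Module.End ℂ ℂ[X] := LinearMap.mulLeft ℂ (X : ℂ[X])

/-- The derivative. -/
noncomputable def opD : Module.End ℂ ℂ[X] := Polynomial.derivative

theorem weyl_rel : opD * opX = opX * opD + 1 := by
  apply LinearMap.ext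
  intro p
  simp only [opX, opD, Module.End.mul_apply, LinearMap.add_apply, LinearMap.mulLeft_apply,
    Polynomial.derivative_mul, Polynomial.derivative_X, one_mul, Module.End.one_apply]
  ring

/-- The representation with highest weight `lam` on polynomials. -/
noncomputable def verma (lam : ℂ) : U2 →ₐ[ℂ] Module.End ℂ ℂ[X] :=
  tripleHom (verma_triple weyl_rel lam)

theorem verma_H (lam : ℂ) (j : ℕ) :
    verma lam uH (X ^ j) = (lam - 2 * j) • (X ^ j : ℂ[X]) := by
  unfold verma
  rw [tripleHom_H]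
  simp only [LinearMap.sub_apply, LinearMap.smul_apply, Module.End.one_apply, Module.End.mul_apply,
    opX, opD, LinearMap.mulLeft_apply, Polynomial.derivative_X_pow]
  cases j with
  | zero => simp
  | succ j =>
    simp only [Nat.add_sub_cancel, Polynomial.smul_eq_C_mul]
    rw [pow_succ]
    simp only [map_sub, map_mul]
    push_cast
    ring_nf

theorem verma_F (lam : ℂ) (p : ℂ[X]) : verma lam uF p = X * p := by
  unfold verma
  rw [tripleHom_F]
  rfl

theorem verma_C (lam : ℂ) : verma lam casimir = (lam * (lam + 2) / 8) • (1 : Module.End ℂ ℂ[X]) :=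
  verma_casimir weyl_rel lam

/-! ## Weights in the enveloping algebra -/

theorem u_FH : uF * uH = (uH + (2 : ℂ) • (1 : U2)) * uF := by
  rw [add_mul, u_HF, smul_mul_assoc, one_mul]
  abel

theorem u_EH : uE * uH = (uH - (2 : ℂ) • (1 : U2)) * uE := by
  rw [sub_mul, u_HE, smul_mul_assoc, one_mul]
  abel

theorem u_EF' : uE * uF = (2 : ℂ) • casimir + (1 / 2 : ℂ) • uH - (1 / 4 : ℂ) • (uH * uH) := by
  unfold casimir
  rw [u_EF]
  module

theorem u_FE' : uF * uE = (2 : ℂ) • casimir - (1 / 2 : ℂ) • uH - (1 / 4 : ℂ) • (uH * uH) := by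
  unfold casimir
  rw [u_EF]
  module

theorem casimir_H : casimir * uH = uH * casimir := by
  have h1 : ∀ z : U2, uH * (uE * z) = uE * (uH * z) + (2 : ℂ) • (uE * z) := by
    intro z
    rw [← mul_assoc, u_HE, add_mul, smul_mul_assoc, mul_assoc]
  have h2 : ∀ z : U2, uH * (uF * z) = uF * (uH * z) - (2 : ℂ) • (uF * z) := by
    intro z
    rw [← mul_assoc, u_HF, sub_mul, smul_mul_assoc, mul_assoc]
  unfold casimir
  simp only [mul_add, add_mul, smul_mul_assoc, mul_smul_comm, mul_assoc, u_HE, u_HF, h1, h2,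
    mul_sub, smul_add, smul_sub]
  module

theorem casimir_E : casimir * uE = uE * casimir := by
  have h1 : ∀ z : U2, uH * (uE * z) = uE * (uH * z) + (2 : ℂ) • (uE * z) := by
    intro z
    rw [← mul_assoc, u_HE, add_mul, smul_mul_assoc, mul_assoc]
  have h2 : ∀ z : U2, uH * (uF * z) = uF * (uH * z) - (2 : ℂ) • (uF * z) := by
    intro z
    rw [← mul_assoc, u_HF, sub_mul, smul_mul_assoc, mul_assoc]
  have h3 : ∀ z : U2, uE * (uF * z) = uF * (uE * z) + uH * z := by
    intro z
    rw [← mul_assoc, u_EF, add_mul, mul_assoc]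
  unfold casimir
  simp only [mul_add, add_mul, smul_mul_assoc, mul_smul_comm, mul_assoc, u_HE, u_HF, u_EF, h1, h2,
    h3, mul_sub, smul_add, smul_sub]
  module

theorem casimir_F : casimir * uF = uF * casimir := by
  have h1 : ∀ z : U2, uH * (uE * z) = uE * (uH * z) + (2 : ℂ) • (uE * z) := by
    intro z
    rw [← mul_assoc, u_HE, add_mul, smul_mul_assoc, mul_assoc]
  have h2 : ∀ z : U2, uH * (uF * z) = uF * (uH * z) - (2 : ℂ) • (uF * z) := by
    intro z
    rw [← mul_assoc, u_HF, sub_mul, smul_mul_assoc, mul_assoc]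
  have h3 : ∀ z : U2, uE * (uF * z) = uF * (uE * z) + uH * z := by
    intro z
    rw [← mul_assoc, u_EF, add_mul, mul_assoc]
  unfold casimir
  simp only [mul_add, add_mul, smul_mul_assoc, mul_smul_comm, mul_assoc, u_HE, u_HF, u_EF, h1, h2,
    h3, mul_sub, smul_add, smul_sub]
  module

/-- The subalgebra generated by `H` and the Casimir element. -/
noncomputable def S0 : Subalgebra ℂ U2 := Algebra.adjoin ℂ {uH, casimir}

theorem H_mem : uH ∈ S0 := Algebra.subset_adjoin (by simp)

theorem C_mem : casimir ∈ S0 := Algebra.subset_adjoin (by simp)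

theorem EF_mem : uE * uF ∈ S0 := by
  rw [u_EF']
  exact S0.sub_mem (S0.add_mem (S0.smul_mem C_mem _) (S0.smul_mem H_mem _))
    (S0.smul_mem (S0.mul_mem H_mem H_mem) _)

theorem FE_mem : uF * uE ∈ S0 := by
  rw [u_FE']
  exact S0.sub_mem (S0.sub_mem (S0.smul_mem C_mem _) (S0.smul_mem H_mem _))
    (S0.smul_mem (S0.mul_mem H_mem H_mem) _)

theorem shift_gen (g h' : U2) (hh : g * uH = h' * g) (hh' : h' ∈ S0)
    (hc : casimir * g = g * casimir) : ∀ x ∈ S0, ∃ x' ∈ S0, g * x = x' * g := by
  intro x hx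
  induction hx using Algebra.adjoin_induction with
  | mem x hx =>
    simp only [Set.mem_insert_iff, Set.mem_singleton_iff] at hx
    rcases hx with rfl | rfl
    · exact ⟨h', hh', hh⟩
    · exact ⟨casimir, C_mem, hc.symm⟩
  | algebraMap r => exact ⟨algebraMap ℂ U2 r, S0.algebraMap_mem r, (Algebra.commutes r g).symm⟩
  | add x y _ _ hx hy =>
    obtain ⟨x', hx', ex⟩ := hx
    obtain ⟨y', hy', ey⟩ := hy
    exact ⟨x' + y', S0.add_mem hx' hy', by rw [mul_add, add_mul, ex, ey]⟩
  | mul x y _ _ hx hy =>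
    obtain ⟨x', hx', ex⟩ := hx
    obtain ⟨y', hy', ey⟩ := hy
    exact ⟨x' * y', S0.mul_mem hx' hy', by rw [← mul_assoc, ex, mul_assoc, ey, mul_assoc]⟩

theorem shiftF : ∀ x ∈ S0, ∃ x' ∈ S0, uF * x = x' * uF :=
  shift_gen uF _ u_FH (S0.add_mem H_mem (S0.smul_mem S0.one_mem _)) casimir_F

theorem shiftE : ∀ x ∈ S0, ∃ x' ∈ S0, uE * x = x' * uE :=
  shift_gen uE _ u_EH (S0.sub_mem H_mem (S0.smul_mem S0.one_mem _)) casimir_E

/-- The element `E^k` or `F^(-k)`. -/
noncomputable def tp : ℤ → U2
  | Int.ofNat n => uE ^ n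
  | Int.negSucc n => uF ^ (n + 1)

/-- The elements of weight `k`. -/
def T (k : ℤ) : Set U2 := {x | ∃ a ∈ S0, x = a * tp k}

theorem T_smul {k : ℤ} {x : U2} (c : ℂ) (hx : x ∈ T k) : c • x ∈ T k := by
  obtain ⟨a, ha, rfl⟩ := hx
  exact ⟨c • a, S0.smul_mem ha c, by rw [smul_mul_assoc]⟩

theorem T_H {k : ℤ} {x : U2} (hx : x ∈ T k) : uH * x ∈ T k := by
  obtain ⟨a, ha, rfl⟩ := hx
  exact ⟨uH * a, S0.mul_mem H_mem ha, by rw [mul_assoc]⟩

theorem T_E {k : ℤ} {x : U2} (hx : x ∈ T k) : uE * x ∈ T (1 + k) := by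
  obtain ⟨a, ha, rfl⟩ := hx
  obtain ⟨a', ha', e⟩ := shiftE a ha
  match k with
  | Int.ofNat n =>
    refine ⟨a', ha', ?_⟩
    have h : (1 : ℤ) + Int.ofNat n = Int.ofNat (n + 1) := by simp; ring
    rw [h]
    simp only [tp]
    rw [← mul_assoc, e, mul_assoc, ← pow_succ']
  | Int.negSucc 0 =>
    refine ⟨a' * (uE * uF), S0.mul_mem ha' EF_mem, ?_⟩
    have h : (1 : ℤ) + Int.negSucc 0 = Int.ofNat 0 := by rfl
    rw [h]
    simp only [tp]
    rw [← mul_assoc, e, mul_assoc]
    simp [mul_assoc]
  | Int.negSucc (n + 1) =>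
    refine ⟨a' * (uE * uF), S0.mul_mem ha' EF_mem, ?_⟩
    have h : (1 : ℤ) + Int.negSucc (n + 1) = Int.negSucc n := by
      simp [Int.negSucc_eq]
    rw [h]
    simp only [tp]
    rw [← mul_assoc, e, pow_succ' uF (n + 1)]
    simp only [mul_assoc]

theorem T_F {k : ℤ} {x : U2} (hx : x ∈ T k) : uF * x ∈ T (-1 + k) := by
  obtain ⟨a, ha, rfl⟩ := hx
  obtain ⟨a', ha', e⟩ := shiftF a ha
  match k with
  | Int.ofNat 0 =>
    refine ⟨a', ha', ?_⟩
    have h : (-1 : ℤ) + Int.ofNat 0 = Int.negSucc 0 := by rfl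
    rw [h]
    simp only [tp]
    rw [← mul_assoc, e]
    simp
  | Int.ofNat (n + 1) =>
    refine ⟨a' * (uF * uE), S0.mul_mem ha' FE_mem, ?_⟩
    have h : (-1 : ℤ) + Int.ofNat (n + 1) = Int.ofNat n := by simp
    rw [h]
    simp only [tp]
    rw [← mul_assoc, e, pow_succ' uE n]
    simp only [mul_assoc]
  | Int.negSucc n =>
    refine ⟨a', ha', ?_⟩
    have h : (-1 : ℤ) + Int.negSucc n = Int.negSucc (n + 1) := by
      simp only [Int.negSucc_eq]
      push_cast
      ring
    rw [h]
    simp only [tp]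
    rw [← mul_assoc, e, mul_assoc, ← pow_succ']

/-- The factor at an end of a chord. -/
noncomputable def zfac (b : Bool) (t : Fin 3) : U2 := if b then leftFactor t else rightFactor t

/-- The weight of the factor at an end of a chord. -/
def wt : Bool → Fin 3 → ℤ
  | true, t => ![1, -1, 0] t
  | false, t => ![-1, 1, 0] t

theorem T_zfac (b : Bool) (t : Fin 3) {k : ℤ} {x : U2} (hx : x ∈ T k) :
    zfac b t * x ∈ T (wt b t + k) := by
  cases b <;> fin_cases t
  · change ((1 / 4 : ℂ) • uF) * x ∈ T (-1 + k)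
    rw [smul_mul_assoc]
    exact T_smul _ (T_F hx)
  · change ((1 / 4 : ℂ) • uE) * x ∈ T (1 + k)
    rw [smul_mul_assoc]
    exact T_smul _ (T_E hx)
  · change ((1 / 8 : ℂ) • uH) * x ∈ T (0 + k)
    rw [smul_mul_assoc, zero_add]
    exact T_smul _ (T_H hx)
  · simp only [zfac, leftFactor, wt, if_true]
    exact T_E hx
  · simp only [zfac, leftFactor, wt, if_true]
    exact T_F hx
  · simp only [zfac, leftFactor, wt, if_true]
    have := T_H hx
    simpa using this

theorem T_list : ∀ l : List (Bool × Fin 3),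
    (l.map (fun x => zfac x.1 x.2)).prod ∈ T ((l.map (fun x => wt x.1 x.2)).sum)
  | [] => ⟨1, S0.one_mem, by simp [tp]⟩
  | x :: l => by
      have ih := T_list l
      simp only [List.map_cons, List.prod_cons, List.sum_cons]
      exact T_zfac x.1 x.2 ih

theorem csum_mem {V : Type} [Fintype V] [DecidableEq V] {N : ℕ} (π : Fin N ≃ V × Bool) :
    csum π (fun _ b t => zfac b t) ∈ S0 := by
  unfold csum
  apply S0.sum_mem
  intro t _
  have h := T_list (List.ofFn (fun k => ((π k).2, t (π k).1)))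
  rw [List.map_ofFn, List.map_ofFn, List.sum_ofFn] at h
  have h0 : ∑ i, ((fun x : Bool × Fin 3 => wt x.1 x.2) ∘ fun k => ((π k).2, t (π k).1)) i = 0 := by
    simp only [Function.comp_def]
    rw [Equiv.sum_comp π (fun x => wt x.2 (t x.1)), Fintype.sum_prod_type]
    apply Finset.sum_eq_zero
    intro u _
    rw [Fintype.sum_bool]
    generalize t u = i
    fin_cases i <;> simp [wt]
  rw [h0] at h
  obtain ⟨a, ha, e⟩ := h
  have e' : (List.ofFn ((fun x : Bool × Fin 3 => zfac x.1 x.2) ∘
      fun k => ((π k).2, t (π k).1))).prod = a := by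
    rw [e]
    change a * uE ^ 0 = a
    simp
  change (List.ofFn ((fun x : Bool × Fin 3 => zfac x.1 x.2) ∘
      fun k => ((π k).2, t (π k).1))).prod ∈ S0
  rw [e']
  exact ha

/-! ## Commutation with `F` -/

theorem csum_commF {V : Type} [Fintype V] [DecidableEq V] {N : ℕ} (π : Fin N ≃ V × Bool) :
    uF * csum π (fun _ b t => zfac b t) = csum π (fun _ b t => zfac b t) * uF := by
  have hFE : uF * uE - uE * uF = -uH := by rw [u_EF]; abel
  have hFH : uF * uH - uH * uF = (2 : ℂ) • uF := by rw [u_HF]; abel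
  refine csum_comm π (fun _ b t => zfac b t) leftFactor
    (fun _ b t i => if b then (![![1, 0, 0], ![0, 1, 0], ![0, 0, 1]] : Fin 3 → Fin 3 → ℂ) t i
      else (![![0, 1 / 4, 0], ![1 / 4, 0, 0], ![0, 0, 1 / 8]] : Fin 3 → Fin 3 → ℂ) t i)
    (fun _ b t i => if b then (![![0, 0, -1], ![0, 0, 0], ![0, 2, 0]] : Fin 3 → Fin 3 → ℂ) t i
      else (![![0, 0, 0], ![0, 0, -(1 / 4)], ![0, 1 / 4, 0]] : Fin 3 → Fin 3 → ℂ) t i)
    uF ?_ ?_ ?_
  · intro u b t
    rw [Fin.sum_univ_three]
    cases b <;> fin_cases t <;> simp [zfac, leftFactor, rightFactor]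
  · intro u b t
    rw [Fin.sum_univ_three]
    cases b
    · fin_cases t
      · simp [zfac, leftFactor, rightFactor]
      · simp only [zfac, leftFactor, rightFactor]
        simp
        rw [← smul_sub, ← neg_smul, ← neg_neg (uF * uE - uE * uF), hFE]
        simp
      · simp only [zfac, leftFactor, rightFactor]
        simp
        rw [← smul_sub, hFH, smul_smul]
        norm_num
    · fin_cases t
      · simp [zfac, leftFactor, hFE]
      · simp [zfac, leftFactor]
      · simp [zfac, leftFactor, hFH]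
  · intro u i j
    rw [Fin.sum_univ_three, Fin.sum_univ_three]
    fin_cases i <;> fin_cases j <;> simp <;> norm_num

/-! ## Elements of `S0` that commute with `F` are polynomials in the Casimir element -/

theorem commute_aeval {A : Type} [Ring A] [Algebra ℂ A] {x y : A} (h : x * y = y * x) (p : ℂ[X]) :
    Commute (aeval x p) y := by
  induction p using Polynomial.induction_on' with
  | add p q hp hq =>
    rw [map_add]
    exact Commute.add_left hp hq
  | monomial n a =>
    rw [Polynomial.aeval_monomial]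
    have hx : Commute x y := h
    exact Commute.mul_left (Algebra.commutes a y) (hx.pow_left n)

/-- Polynomials in `H` and in the Casimir element. -/
noncomputable def psi : ℂ[X][X] →+* U2 :=
  Polynomial.eval₂RingHom' ((aeval uH : ℂ[X] →ₐ[ℂ] U2) : ℂ[X] →+* U2) casimir
    (fun p => commute_aeval casimir_H.symm p)

theorem psi_apply (P : ℂ[X][X]) :
    psi P = P.sum (fun k a => aeval uH a * casimir ^ k) := by
  unfold psi
  change Polynomial.eval₂ _ _ _ = _
  rw [Polynomial.eval₂_eq_sum]
  rfl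

theorem mem_psi {x : U2} (hx : x ∈ S0) : ∃ P, x = psi P := by
  induction hx using Algebra.adjoin_induction with
  | mem x hx =>
    simp only [Set.mem_insert_iff, Set.mem_singleton_iff] at hx
    rcases hx with rfl | rfl
    · refine ⟨C X, ?_⟩
      unfold psi
      change uH = Polynomial.eval₂ _ _ _
      rw [Polynomial.eval₂_C]
      simp
    · refine ⟨X, ?_⟩
      unfold psi
      change casimir = Polynomial.eval₂ _ _ _
      rw [Polynomial.eval₂_X]
  | algebraMap r =>
    refine ⟨C (C r), ?_⟩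
    unfold psi
    change algebraMap ℂ U2 r = Polynomial.eval₂ _ _ _
    rw [Polynomial.eval₂_C]
    simp
  | add x y _ _ hx hy =>
    obtain ⟨P, rfl⟩ := hx
    obtain ⟨Q, rfl⟩ := hy
    exact ⟨P + Q, (map_add psi P Q).symm⟩
  | mul x y _ _ hx hy =>
    obtain ⟨P, rfl⟩ := hx
    obtain ⟨Q, rfl⟩ := hy
    exact ⟨P * Q, (map_mul psi P Q).symm⟩

theorem verma_aevalH (lam : ℂ) (a : ℂ[X]) (j : ℕ) :
    verma lam (aeval uH a) (X ^ j) = (a.eval (lam - 2 * j)) • (X ^ j : ℂ[X]) := by
  have hn : ∀ n : ℕ, verma lam (uH ^ n) (X ^ j) = ((lam - 2 * j) ^ n) • (X ^ j : ℂ[X]) := by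
    intro n
    induction n with
    | zero => simp
    | succ n ih =>
      rw [pow_succ, map_mul, Module.End.mul_apply, verma_H, map_smul, ih, smul_smul, pow_succ,
        mul_comm]
  induction a using Polynomial.induction_on' with
  | add p q hp hq =>
    rw [map_add, map_add, LinearMap.add_apply, hp, hq, Polynomial.eval_add, add_smul]
  | monomial n a =>
    rw [Polynomial.aeval_monomial, map_mul, Module.End.mul_apply, hn, AlgHom.commutes,
      Module.algebraMap_end_apply, smul_smul, Polynomial.eval_monomial]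

theorem verma_psi (lam : ℂ) (P : ℂ[X][X]) (j : ℕ) :
    verma lam (psi P) (X ^ j)
      = (((P.map (evalRingHom (lam - 2 * j))).eval (lam * (lam + 2) / 8))) • (X ^ j : ℂ[X]) := by
  induction P using Polynomial.induction_on' with
  | add P Q hP hQ =>
    rw [map_add, map_add, LinearMap.add_apply, hP, hQ, Polynomial.map_add, Polynomial.eval_add,
      add_smul]
  | monomial n a =>
    have h1 : psi (Polynomial.monomial n a) = aeval uH a * casimir ^ n := by
      unfold psi
      change Polynomial.eval₂ _ _ _ = _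
      rw [Polynomial.eval₂_monomial]
      rfl
    have h2 : verma lam (casimir ^ n)
        = ((lam * (lam + 2) / 8) ^ n) • (1 : Module.End ℂ ℂ[X]) := by
      rw [map_pow, verma_C, _root_.smul_pow, one_pow]
    rw [h1, map_mul, Module.End.mul_apply, h2, LinearMap.smul_apply, Module.End.one_apply, map_smul, verma_aevalH, smul_smul,
      Polynomial.map_monomial, Polynomial.eval_monomial, mul_comm]
    rfl

theorem infinite_cas (h0 : ℂ) :
    (Set.range (fun j : ℕ => (h0 + 2 * j) * ((h0 + 2 * j) + 2) / 8)).Infinite := by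
  intro hfin
  have hfin2 : (Set.range (fun j : ℕ => (h0 + 2 * (j : ℂ)))).Finite := by
    have hsub : (Set.range (fun j : ℕ => (h0 + 2 * (j : ℂ))))
        ⊆ ⋃ c ∈ Set.range (fun j : ℕ => (h0 + 2 * j) * ((h0 + 2 * j) + 2) / 8),
          {x : ℂ | x ∈ ((X ^ 2 + C 2 * X - C (8 * c) : ℂ[X])).rootSet ℂ} := by
      rintro _ ⟨j, rfl⟩
      simp only [Set.mem_iUnion]
      refine ⟨_, ⟨j, rfl⟩, ?_⟩
      rw [Set.mem_ofPred_eq, Polynomial.mem_rootSet]
      constructor
      · intro h
        have := congrArg (fun p => Polynomial.coeff p 2) h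
        simp [Polynomial.coeff_X, Polynomial.coeff_C] at this
      · simp
        ring
    refine Set.Finite.subset (Set.Finite.biUnion hfin (fun c _ => ?_)) hsub
    exact Polynomial.rootSet_finite _ _
  refine (Set.infinite_range_of_injective ?_) hfin2
  intro i j hij
  simp only [add_right_inj, mul_eq_mul_left_iff] at hij
  rcases hij with h | h
  · exact_mod_cast h
  · norm_num at h

theorem exists_poly {x : U2} (hx : x ∈ S0) (hF : uF * x = x * uF) :
    ∃ p : ℂ[X], aeval casimir p = x := by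
  obtain ⟨P, rfl⟩ := mem_psi hx
  have key : ∀ (lam : ℂ) (j : ℕ),
      (P.map (evalRingHom (lam - 2 * j))).eval (lam * (lam + 2) / 8)
        = (P.map (evalRingHom (lam - 2 * (j + 1 : ℕ)))).eval (lam * (lam + 2) / 8) := by
    intro lam j
    have h1 := congrArg (fun z => verma lam z (X ^ j)) hF
    simp only [map_mul, Module.End.mul_apply] at h1
    rw [verma_psi, map_smul, verma_F, ← pow_succ', verma_psi] at h1
    have h2 : (X ^ (j + 1) : ℂ[X]) ≠ 0 := pow_ne_zero _ X_ne_zero
    exact smul_left_injective ℂ h2 h1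
  have hper : ∀ h0 : ℂ, P.map (evalRingHom h0) = P.map (evalRingHom (h0 - 2)) := by
    intro h0
    apply Polynomial.eq_of_infinite_eval_eq
    refine (infinite_cas h0).mono ?_
    rintro _ ⟨j, rfl⟩
    have h1 := key (h0 + 2 * j) j
    rw [Set.mem_ofPred_eq]
    have e1 : h0 + 2 * (j : ℂ) - 2 * j = h0 := by ring
    have e2 : h0 + 2 * (j : ℂ) - 2 * (j + 1 : ℕ) = h0 - 2 := by push_cast; ring
    rw [e1, e2] at h1
    exact h1
  have hcoef : ∀ k, P.coeff k = C ((P.coeff k).eval 0) := by
    intro k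
    have hp : ∀ j : ℕ, (P.coeff k).eval (-(2 * (j : ℂ))) = (P.coeff k).eval 0 := by
      intro j
      induction j with
      | zero => simp
      | succ j ih =>
        have h1 := congrArg (fun Q => Polynomial.coeff Q k) (hper (-(2 * (j : ℂ))))
        simp only [Polynomial.coeff_map, coe_evalRingHom] at h1
        rw [← ih, h1]
        congr 1
        push_cast
        ring
    apply Polynomial.eq_of_infinite_eval_eq
    have hinf : (Set.range (fun j : ℕ => (-(2 * (j : ℂ))))).Infinite := by
      apply Set.infinite_range_of_injective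
      intro i j hij
      simp only [neg_inj, mul_eq_mul_left_iff] at hij
      rcases hij with h | h
      · exact_mod_cast h
      · norm_num at h
    refine hinf.mono ?_
    rintro _ ⟨j, rfl⟩
    rw [Set.mem_ofPred_eq, hp j, Polynomial.eval_C]
  refine ⟨P.map (evalRingHom 0), ?_⟩
  have hP : P = (P.map (evalRingHom (0 : ℂ))).map C := by
    ext1 k
    rw [Polynomial.coeff_map, Polynomial.coeff_map]
    exact hcoef k
  conv_rhs => rw [hP]
  unfold psi
  change _ = Polynomial.eval₂ _ _ _
  rw [Polynomial.eval₂_map, Polynomial.aeval_def]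
  congr 1
  ext r
  simp

theorem poly_unique {p q : ℂ[X]} (h : aeval casimir p = aeval casimir q) : p = q := by
  apply Polynomial.eq_of_infinite_eval_eq
  refine (infinite_cas 0).mono ?_
  rintro _ ⟨j, rfl⟩
  rw [Set.mem_ofPred_eq]
  have hv : ∀ (r : ℂ[X]) (lam : ℂ), verma lam (aeval casimir r) 1
      = (r.eval (lam * (lam + 2) / 8)) • (1 : ℂ[X]) := by
    intro r lam
    rw [← Polynomial.aeval_algHom_apply, verma_C]
    have := Polynomial.aeval_algebraMap_apply (Module.End ℂ ℂ[X]) (lam * (lam + 2) / 8) r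
    rw [Algebra.algebraMap_eq_smul_one, Algebra.algebraMap_eq_smul_one] at this
    rw [this]
    simp
  have h1 := congrArg (fun z => verma (0 + 2 * (j : ℂ)) z 1) h
  simp only [hv] at h1
  exact smul_left_injective ℂ one_ne_zero h1

end Pool.Agent.Helper74.Sl2Ext
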