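import Mathlib

/-!
# Polynomials that count colourings

For a function `φ` on the equivalence relations of a finite type `α`, the sum of `φ (ker c)` over all
colourings `c : α → Fin q` is a polynomial in `q`.
-/

open Finset Polynomial

namespace Pool.Agent.Helper74.Sl2Ext

instance finiteSetoid (α : Type) [Finite α] : Finite (Setoid α) :=
  Finite.of_injective (fun r : Setoid α => (fun x y => r x y : α → α → Prop))
    (fun r s h => Setoid.ext (fun a b => by
      have := congrFun (congrFun h a) b
      exact iff_of_eq this))

noncomputable instance fintypeSetoid (α : Type) [Finite α] : Fintype (Setoid α) :=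
  Fintype.ofFinite _

/-- The polynomial whose value at a natural number `q` is the sum of `φ (ker c)` over all
colourings `c : α → Fin q`. -/
noncomputable def colorPoly {α : Type} [Finite α] (φ : Setoid α → ℤ) : ℤ[X] :=
  ∑ r : Setoid α, C (φ r) * descPochhammer ℤ (Nat.card (Quotient r))

/-- Colourings with a given kernel are the same as embeddings of the quotient. -/
noncomputable def kerEquiv {α β : Type} (r : Setoid α) :
    {c : α → β // Setoid.ker c = r} ≃ (Quotient r ↪ β) where
  toFun c := ⟨Quotient.lift c.1 (fun a b h => by
      have h' : (Setoid.ker c.1) a b := by rw [c.2]; exact h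
      exact h'), by
    intro x y
    refine Quotient.inductionOn₂ x y ?_
    intro a b h
    have h' : (Setoid.ker c.1) a b := h
    rw [c.2] at h'
    exact Quotient.sound h'⟩
  invFun e := ⟨fun a => e (Quotient.mk r a), by
    ext a b
    constructor
    · intro h
      exact Quotient.exact (e.injective h)
    · intro h
      exact congrArg e (Quotient.sound h)⟩
  left_inv c := by
    apply Subtype.ext
    rfl
  right_inv e := by
    apply DFunLike.ext
    intro x
    refine Quotient.inductionOn x ?_
    intro a
    rfl

theorem colorPoly_eval {α : Type} [Fintype α] [DecidableEq α] (φ : Setoid α → ℤ) (q : ℕ) :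
    (colorPoly φ).eval (q : ℤ) = ∑ c : α → Fin q, φ (Setoid.ker c) := by
  classical
  rw [colorPoly, Polynomial.eval_finsetSum]
  rw [← Finset.sum_fiberwise (s := (Finset.univ : Finset (α → Fin q)))
    (g := fun c => Setoid.ker c) (f := fun c => φ (Setoid.ker c))]
  refine Finset.sum_congr rfl (fun r _ => ?_)
  rw [Polynomial.eval_mul, Polynomial.eval_C, descPochhammer_eval_eq_descFactorial]
  have h1 : ∑ i ∈ (Finset.univ : Finset (α → Fin q)) with Setoid.ker i = r, φ (Setoid.ker i)
      = ∑ i ∈ (Finset.univ : Finset (α → Fin q)) with Setoid.ker i = r, φ r := by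
    refine Finset.sum_congr rfl (fun c hc => ?_)
    rw [Finset.mem_filter] at hc
    rw [hc.2]
  rw [h1, Finset.sum_const, nsmul_eq_mul, mul_comm]
  congr 1
  have h2 : (Finset.filter (fun c : α → Fin q => Setoid.ker c = r) Finset.univ).card
      = Fintype.card {c : α → Fin q // Setoid.ker c = r} := by
    rw [Fintype.card_subtype]
  rw [h2, Fintype.card_congr (kerEquiv r)]
  rw [Fintype.card_embedding_eq, Nat.card_eq_fintype_card, Fintype.card_fin]

/-- Two polynomials with integer coefficients that agree at all natural numbers are equal. -/
theorem poly_ext_nat {p q : ℤ[X]} (h : ∀ n : ℕ, p.eval (n : ℤ) = q.eval (n : ℤ)) : p = q := by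
  apply Polynomial.eq_of_infinite_eval_eq
  refine Set.Infinite.mono (s := Set.range (fun n : ℕ => (n : ℤ))) ?_ ?_
  · rintro _ ⟨n, rfl⟩
    exact h n
  · exact Set.infinite_range_of_injective Nat.cast_injective

end Pool.Agent.Helper74.Sl2Ext
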