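import Mathlib

/-!
# Chord diagrams, the sl(2) weight system and 4-invariants of graphs: definitions
-/

open Polynomial

namespace Pool.Agent.Helper74.Sl2Ext

/-! ## Graphs and 4-invariants -/

/-- The graph `G'_{ab}`: the adjacency of `a` and `b` is toggled. -/
def toggleEdge {V : Type} (G : SimpleGraph V) (a b : V) : SimpleGraph V where
  Adj x y := x ≠ y ∧ Xor (G.Adj x y) ((x = a ∧ y = b) ∨ (x = b ∧ y = a))
  symm := ⟨by
    intro x y h
    refine ⟨h.1.symm, ?_⟩
    have h2 := h.2
    rw [G.adj_comm x y] at h2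
    have e : ((x = a ∧ y = b) ∨ (x = b ∧ y = a)) ↔ ((y = a ∧ x = b) ∨ (y = b ∧ x = a)) := by
      tauto
    rwa [e] at h2⟩
  loopless := ⟨fun x h => h.1 rfl⟩

/-- The graph `G~_{ab}`: the adjacency of `a` with every vertex `v ≠ a` that is adjacent to `b` is
toggled. -/
def slide {V : Type} (G : SimpleGraph V) (a b : V) : SimpleGraph V where
  Adj x y := x ≠ y ∧ Xor (G.Adj x y) ((x = a ∧ G.Adj y b) ∨ (y = a ∧ G.Adj x b))
  symm := ⟨by
    intro x y h
    refine ⟨h.1.symm, ?_⟩
    have h2 := h.2
    rw [G.adj_comm x y] at h2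
    have e : ((x = a ∧ G.Adj y b) ∨ (y = a ∧ G.Adj x b))
        ↔ ((y = a ∧ G.Adj x b) ∨ (x = a ∧ G.Adj y b)) := by
      tauto
    rwa [e] at h2⟩
  loopless := ⟨fun x h => h.1 rfl⟩

/-- A complex-valued function on finite simple graphs up to isomorphism. -/
structure GraphInvariant where
  /-- The value of the invariant at a finite simple graph. -/
  toFun : (V : Type) → [Fintype V] → SimpleGraph V → ℂ
  /-- Isomorphic graphs have the same value. -/
  iso : ∀ {V W : Type} [Fintype V] [Fintype W] (G : SimpleGraph V) (H : SimpleGraph W),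
    Nonempty (G ≃g H) → toFun V G = toFun W H

/-- The 4-term relation for graphs:
`f(G) - f(G'_{ab}) = f(G~_{ab}) - f(G~'_{ab})` for all `G` and all ordered pairs `a ≠ b`. -/
def GraphInvariant.IsFourInvariant (f : GraphInvariant) : Prop :=
  ∀ (V : Type) [Fintype V] (G : SimpleGraph V) (a b : V), a ≠ b →
    f.toFun V G - f.toFun V (toggleEdge G a b)
      = f.toFun V (slide G a b) - f.toFun V (toggleEdge (slide G a b) a b)

/-! ## Chord diagrams -/

/-- A chord diagram of order `n`, cut at a point of the circle that is not an end of a chord: the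
`2n` ends are numbered along the circle and `σ` sends each end to the other end of its chord. -/
structure ChordDiagram (n : ℕ) where
  /-- The other end of the chord. -/
  σ : Fin (2 * n) → Fin (2 * n)
  /-- The perfect matching is an involution ... -/
  invol : ∀ i, σ (σ i) = i
  /-- ... without fixed points. -/
  fixfree : ∀ i, σ i ≠ i

variable {n : ℕ}

/-- The chords of a chord diagram; a chord is given by its first end. -/
def ChordDiagram.Chord (D : ChordDiagram n) : Type := {i : Fin (2 * n) // i < D.σ i}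

instance (D : ChordDiagram n) : Fintype D.Chord :=
  inferInstanceAs (Fintype {i : Fin (2 * n) // i < D.σ i})

instance (D : ChordDiagram n) : DecidableEq D.Chord :=
  inferInstanceAs (DecidableEq {i : Fin (2 * n) // i < D.σ i})

/-- The chord that ends at `k`. -/
def ChordDiagram.chordAt (D : ChordDiagram n) (k : Fin (2 * n)) : D.Chord :=
  if h : k < D.σ k then ⟨k, h⟩
  else ⟨D.σ k, by
    rw [D.invol]
    exact lt_of_le_of_ne (not_lt.mp h) (D.fixfree k)⟩

/-- The intersection graph: two chords are adjacent when their ends alternate. -/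
def ChordDiagram.interGraph (D : ChordDiagram n) : SimpleGraph D.Chord where
  Adj u v := (u.1 < v.1 ∧ v.1 < D.σ u.1 ∧ D.σ u.1 < D.σ v.1) ∨
    (v.1 < u.1 ∧ u.1 < D.σ v.1 ∧ D.σ v.1 < D.σ u.1)
  symm := ⟨fun _ _ h => Or.symm h⟩
  loopless := ⟨fun u h => by
    rcases h with h | h <;> exact lt_irrefl _ h.1⟩

/-! ## The sl(2) weight system -/

/-- The Lie algebra `sl(2)` of traceless complex 2 by 2 matrices. -/
abbrev Sl2 : Type := LieAlgebra.SpecialLinear.sl (Fin 2) ℂ

/-- Its universal enveloping algebra. -/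
abbrev U2 : Type := UniversalEnvelopingAlgebra ℂ Sl2

/-- The matrix `E`, with entry `1` in the top right corner. -/
def sE : Sl2 := ⟨!![0, 1; 0, 0], by
  change Matrix.trace (!![0, 1; 0, 0] : Matrix (Fin 2) (Fin 2) ℂ) = 0
  simp [Matrix.trace_fin_two]⟩

/-- The matrix `F`, with entry `1` in the bottom left corner. -/
def sF : Sl2 := ⟨!![0, 0; 1, 0], by
  change Matrix.trace (!![0, 0; 1, 0] : Matrix (Fin 2) (Fin 2) ℂ) = 0
  simp [Matrix.trace_fin_two]⟩

/-- The matrix `H`, the diagonal matrix with entries `1` and `-1`. -/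
def sH : Sl2 := ⟨!![1, 0; 0, -1], by
  change Matrix.trace (!![1, 0; 0, -1] : Matrix (Fin 2) (Fin 2) ℂ) = 0
  simp [Matrix.trace_fin_two]⟩

/-- The image in the universal enveloping algebra. -/
noncomputable def uE : U2 := UniversalEnvelopingAlgebra.ι ℂ sE

/-- The image in the universal enveloping algebra. -/
noncomputable def uF : U2 := UniversalEnvelopingAlgebra.ι ℂ sF

/-- The image in the universal enveloping algebra. -/
noncomputable def uH : U2 := UniversalEnvelopingAlgebra.ι ℂ sH

/-- The Casimir element `C = (EF + FE + H^2 / 2) / 4`. -/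
noncomputable def casimir : U2 :=
  (1 / 4 : ℂ) • (uE * uF + uF * uE + (1 / 2 : ℂ) • (uH * uH))

/-- The left factors of the tensor `(E ⊗ F + F ⊗ E + (H ⊗ H) / 2) / 4`. -/
noncomputable def leftFactor : Fin 3 → U2 := ![uE, uF, uH]

/-- The right factors of the tensor `(E ⊗ F + F ⊗ E + (H ⊗ H) / 2) / 4`. -/
noncomputable def rightFactor : Fin 3 → U2 :=
  ![(1 / 4 : ℂ) • uF, (1 / 4 : ℂ) • uE, (1 / 8 : ℂ) • uH]

/-- The sl(2) weight system of a chord diagram: the invariant tensor
`(E ⊗ F + F ⊗ E + (H ⊗ H) / 2) / 4 = ∑ i, leftFactor i ⊗ rightFactor i`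
is put on each chord, and the factors are multiplied in the order of the ends along the circle. -/
noncomputable def sl2Weight (D : ChordDiagram n) : U2 :=
  ∑ t : D.Chord → Fin 3, (List.ofFn (fun k : Fin (2 * n) =>
    if k < D.σ k then leftFactor (t (D.chordAt k)) else rightFactor (t (D.chordAt k)))).prod

end Pool.Agent.Helper74.Sl2Ext
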