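import Mathlib

/-!
# Contraction sums along chords

`V` is the set of chords, `π : Fin N ≃ V × Bool` numbers their ends along the circle.
-/

open Finset

namespace Pool.Agent.Helper74.Sl2Ext

section

variable {A : Type*} [Ring A] [Algebra ℂ A] {V : Type} [Fintype V] [DecidableEq V] {N : ℕ}

/-- The sum over all maps from the chords to the index set of the products along the circle. -/
noncomputable def csum {ι : Type} [Fintype ι] (π : Fin N ≃ V × Bool) (z : V → Bool → ι → A) : A :=
  ∑ t : V → ι, (List.ofFn (fun k => z (π k).1 (π k).2 (t (π k).1))).prod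

theorem csum_expand {ι I : Type} [Fintype ι] [Fintype I] [DecidableEq I]
    (π : Fin N ≃ V × Bool) (z : V → Bool → ι → A) (m : I → A) (α : V → Bool → ι → I → ℂ)
    (hz : ∀ u b t, z u b t = ∑ i, α u b t i • m i) :
    csum π z = ∑ r : V × Bool → I,
      (∏ u, ∑ t, α u true t (r (u, true)) * α u false t (r (u, false)))
        • (List.ofFn (fun k => m (r (π k)))).prod := by
  classical
  unfold csum
  have h1 : ∀ t : V → ι, (List.ofFn (fun k => z (π k).1 (π k).2 (t (π k).1))).prod
      = ∑ r : V × Bool → I, (∏ u, α u true (t u) (r (u, true)) * α u false (t u) (r (u, false)))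
        • (List.ofFn (fun k => m (r (π k)))).prod := by
    intro t
    have h2 : (List.ofFn (fun k => z (π k).1 (π k).2 (t (π k).1))).prod
        = MultilinearMap.mkPiAlgebraFin ℂ N A
          (fun k => ∑ i, α (π k).1 (π k).2 (t (π k).1) i • m i) := by
      rw [MultilinearMap.mkPiAlgebraFin_apply]
      congr 2
      funext k
      exact hz _ _ _
    rw [h2, MultilinearMap.map_sum]
    rw [← Equiv.sum_comp (Equiv.arrowCongr π.symm (Equiv.refl I))]
    refine Finset.sum_congr rfl (fun r _ => ?_)
    rw [MultilinearMap.map_smul_univ, MultilinearMap.mkPiAlgebraFin_apply]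
    have h3 : ∀ k, (Equiv.arrowCongr π.symm (Equiv.refl I)) r k = r (π k) := by
      intro k
      rfl
    simp only [h3]
    congr 1
    rw [Equiv.prod_comp π (fun x => α x.1 x.2 (t x.1) (r x)), Fintype.prod_prod_type]
    refine Finset.prod_congr rfl (fun u _ => ?_)
    rw [Fintype.prod_bool]
  rw [Finset.sum_congr rfl (fun t _ => h1 t), Finset.sum_comm]
  refine Finset.sum_congr rfl (fun r _ => ?_)
  rw [← Finset.sum_smul]
  congr 1
  rw [Finset.prod_univ_sum]
  rw [Fintype.piFinset_univ]

theorem csum_replace {ι₁ ι₂ I : Type} [Fintype ι₁] [Fintype ι₂] [Fintype I] [DecidableEq I]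
    (π : Fin N ≃ V × Bool) (z₁ : V → Bool → ι₁ → A) (z₂ : V → Bool → ι₂ → A) (m : I → A)
    (α₁ : V → Bool → ι₁ → I → ℂ) (α₂ : V → Bool → ι₂ → I → ℂ) (κ : ℂ)
    (hz₁ : ∀ u b t, z₁ u b t = ∑ i, α₁ u b t i • m i)
    (hz₂ : ∀ u b t, z₂ u b t = ∑ i, α₂ u b t i • m i)
    (h : ∀ u i j, ∑ t, α₁ u true t i * α₁ u false t j
      = κ * ∑ t, α₂ u true t i * α₂ u false t j) :
    csum π z₁ = κ ^ (Fintype.card V) • csum π z₂ := by
  rw [csum_expand π z₁ m α₁ hz₁, csum_expand π z₂ m α₂ hz₂, Finset.smul_sum]
  refine Finset.sum_congr rfl (fun r _ => ?_)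
  rw [smul_smul]
  congr 1
  rw [Finset.prod_congr rfl (fun u _ => h u (r (u, true)) (r (u, false))),
    Finset.prod_mul_distrib, Finset.prod_const, Finset.card_univ]

omit [Algebra ℂ A] in
/-- The commutator with a fixed element, of a product. -/
theorem comm_prod_ofFn (f : A) : ∀ (N : ℕ) (z : Fin N → A),
    f * (List.ofFn z).prod - (List.ofFn z).prod * f
      = ∑ k, (List.ofFn (Function.update z k (f * z k - z k * f))).prod
  | 0, z => by simp
  | N + 1, z => by
      have ih := comm_prod_ofFn f N (fun k => z k.succ)
      rw [Fin.sum_univ_succ]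
      have h0 : (List.ofFn (Function.update z 0 (f * z 0 - z 0 * f))).prod
          = (f * z 0 - z 0 * f) * (List.ofFn (fun k => z k.succ)).prod := by
        rw [List.ofFn_succ, List.prod_cons, Function.update_self]
        congr 3
      have h1 : ∀ k : Fin N, (List.ofFn (Function.update z k.succ
            (f * z k.succ - z k.succ * f))).prod
          = z 0 * (List.ofFn (Function.update (fun k => z k.succ) k
            (f * z k.succ - z k.succ * f))).prod := by
        intro k
        rw [List.ofFn_succ, List.prod_cons, Function.update_of_ne (Fin.succ_ne_zero k).symm]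
        congr 3
        funext j
        by_cases hj : j = k
        · subst hj
          simp
        · rw [Function.update_of_ne hj, Function.update_of_ne]
          exact fun h => hj (Fin.succ_injective _ h)
      rw [h0, Finset.sum_congr rfl (fun k _ => h1 k), ← Finset.mul_sum, ← ih, List.ofFn_succ,
        List.prod_cons]
      noncomm_ring

theorem csum_comm {ι I : Type} [Fintype ι] [Fintype I] [DecidableEq I]
    (π : Fin N ≃ V × Bool) (z : V → Bool → ι → A) (m : I → A)
    (α β : V → Bool → ι → I → ℂ) (f : A)
    (hz : ∀ u b t, z u b t = ∑ i, α u b t i • m i)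
    (hf : ∀ u b t, f * z u b t - z u b t * f = ∑ i, β u b t i • m i)
    (h : ∀ u i j, ∑ t, β u true t i * α u false t j + ∑ t, α u true t i * β u false t j = 0) :
    f * csum π z = csum π z * f := by
  classical
  rw [← sub_eq_zero]
  have h1 : f * csum π z - csum π z * f
      = ∑ x : V × Bool, csum π (fun u b t =>
          if (u, b) = x then f * z u b t - z u b t * f else z u b t) := by
    unfold csum
    rw [Finset.mul_sum, Finset.sum_mul, ← Finset.sum_sub_distrib, Finset.sum_comm]
    refine Finset.sum_congr rfl (fun t _ => ?_)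
    rw [comm_prod_ofFn, ← Equiv.sum_comp π]
    refine Finset.sum_congr rfl (fun k _ => ?_)
    congr 2
    funext j
    by_cases hj : j = k
    · subst hj
      simp
    · have hne : ¬ (((π j).1, (π j).2) = π k) := fun e => hj (π.injective e)
      simp only [Function.update_of_ne hj, if_neg hne]
  rw [h1, Fintype.sum_prod_type]
  apply Finset.sum_eq_zero
  intro v _
  rw [Fintype.sum_bool]
  have h2 : ∀ b : Bool, csum π (fun u b' t =>
        if (u, b') = (v, b) then f * z u b' t - z u b' t * f else z u b' t)
      = ∑ r : V × Bool → I,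
        ((∏ u ∈ Finset.univ.erase v, ∑ t, α u true t (r (u, true)) * α u false t (r (u, false)))
          * (∑ t, (if b = true then β v true t (r (v, true)) else α v true t (r (v, true)))
            * (if b = false then β v false t (r (v, false)) else α v false t (r (v, false)))))
        • (List.ofFn (fun k => m (r (π k)))).prod := by
    intro b
    rw [csum_expand π _ m (fun u b' t i => if (u, b') = (v, b) then β u b' t i else α u b' t i)]
    · refine Finset.sum_congr rfl (fun r _ => ?_)
      congr 1
      rw [← Finset.prod_erase_mul Finset.univ _ (Finset.mem_univ v)]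
      congr 1
      · refine Finset.prod_congr rfl (fun u hu => ?_)
        have hu' : u ≠ v := Finset.ne_of_mem_erase hu
        refine Finset.sum_congr rfl (fun t _ => ?_)
        simp [hu']
      · refine Finset.sum_congr rfl (fun t _ => ?_)
        cases b <;> simp
    · intro u b' t
      split_ifs
      · exact hf u b' t
      · exact hz u b' t
  rw [h2 true, h2 false, ← Finset.sum_add_distrib]
  apply Finset.sum_eq_zero
  intro r _
  rw [← add_smul, ← mul_add]
  have h3 := h v (r (v, true)) (r (v, false))
  simp only [if_true, Bool.true_eq_false, if_false, Bool.false_eq_true]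
  rw [h3, mul_zero, zero_smul]

end

end Pool.Agent.Helper74.Sl2Ext
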