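import Pool.Agent.Helper74.Sl2Ext.ColorPoly
import Pool.Agent.Helper74.Sl2Ext.Defs

/-!
# The 4-invariant

For a graph `G` on `V`, a colouring `c : V × Bool → Fin q` (two colours for each vertex) has weight `0`
if some vertex has two equal colours, and otherwise the product over the edges `uv` of `(-1)` to the
number of pairs of equal colours of `u` and `v`. The sum of the weights is a polynomial in `q`; its
value at `q = -2` is, up to a factor, the 4-invariant.
-/

open Finset Polynomial

namespace Pool.Agent.Helper74.Sl2Ext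

section

variable {V : Type}

open Classical in
/-- The sign of a pair of vertices. -/
noncomputable def chi (r : Setoid (V × Bool)) (u v : V) : ℤ :=
  ∏ i : Bool, ∏ j : Bool, if r (u, i) (v, j) then (-1 : ℤ) else 1

theorem chi_comm (r : Setoid (V × Bool)) (u v : V) : chi r u v = chi r v u := by
  classical
  unfold chi
  rw [Finset.prod_comm]
  refine Finset.prod_congr rfl (fun i _ => Finset.prod_congr rfl (fun j _ => ?_))
  have : r (u, j) (v, i) = r (v, i) (u, j) := propext ⟨fun h => r.symm h, fun h => r.symm h⟩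
  simp only [this]

theorem chi_sq (r : Setoid (V × Bool)) (u v : V) : chi r u v * chi r u v = 1 := by
  classical
  unfold chi
  rw [← Finset.prod_mul_distrib]
  apply Finset.prod_eq_one
  intro i _
  rw [← Finset.prod_mul_distrib]
  apply Finset.prod_eq_one
  intro j _
  split_ifs <;> norm_num

/-- The sign as a function of an unordered pair. -/
noncomputable def chi2 (r : Setoid (V × Bool)) : Sym2 V → ℤ :=
  Sym2.lift ⟨chi r, chi_comm r⟩

theorem chi2_mk (r : Setoid (V × Bool)) (u v : V) : chi2 r s(u, v) = chi r u v := rfl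

theorem chi2_sq (r : Setoid (V × Bool)) (e : Sym2 V) : chi2 r e * chi2 r e = 1 := by
  induction e with
  | _ u v => exact chi_sq r u v

open Classical in
/-- The product of the signs over the edges. -/
noncomputable def edgeProd [Fintype V] (G : SimpleGraph V) (r : Setoid (V × Bool)) : ℤ :=
  ∏ e : Sym2 V, if e ∈ G.edgeSet then chi2 r e else 1

open Classical in
/-- `1` if every vertex has two different colours and `0` otherwise. -/
noncomputable def sep [Fintype V] (r : Setoid (V × Bool)) : ℤ :=
  ∏ u : V, if r (u, true) (u, false) then 0 else 1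

/-- The weight of a colouring. -/
noncomputable def phi [Fintype V] (G : SimpleGraph V) (r : Setoid (V × Bool)) : ℤ :=
  sep r * edgeProd G r

/-- The polynomial that counts colourings with their weights. -/
noncomputable def graphPoly [Fintype V] (G : SimpleGraph V) : ℤ[X] := colorPoly (phi G)

end

/-! ## Invariance under isomorphism -/

theorem phi_comap {V W : Type} [Fintype V] [Fintype W] (G : SimpleGraph V) (H : SimpleGraph W)
    (f : G ≃g H) {γ : Type} (c : W × Bool → γ) :
    phi G (Setoid.ker (fun x : V × Bool => c (f x.1, x.2))) = phi H (Setoid.ker c) := by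
  classical
  have hchi : ∀ u v : V, chi (Setoid.ker (fun x : V × Bool => c (f x.1, x.2))) u v
      = chi (Setoid.ker c) (f u) (f v) := by
    intro u v
    unfold chi
    rfl
  unfold phi sep edgeProd
  congr 1
  · refine Fintype.prod_equiv f.toEquiv _ _ (fun u => ?_)
    rfl
  · have hbij : Function.Bijective (Sym2.map f) := by
      refine ⟨Sym2.map.injective f.injective, fun e => ?_⟩
      induction e with
      | _ x y =>
        refine ⟨s(f.symm x, f.symm y), ?_⟩
        rw [Sym2.map_mk, f.apply_symm_apply, f.apply_symm_apply]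
    refine Fintype.prod_bijective (Sym2.map f) hbij _ _ (fun e => ?_)
    induction e with
    | _ u v =>
      have h1 : (Sym2.map f) s(u, v) = s(f u, f v) := rfl
      rw [h1, chi2_mk, chi2_mk, hchi]
      have h2 : (s(u, v) ∈ G.edgeSet) = (s(f u, f v) ∈ H.edgeSet) := by
        rw [SimpleGraph.mem_edgeSet, SimpleGraph.mem_edgeSet]
        exact propext f.map_adj_iff.symm
      simp only [h2]

theorem graphPoly_iso {V W : Type} [Fintype V] [Fintype W] (G : SimpleGraph V) (H : SimpleGraph W)
    (f : G ≃g H) : graphPoly G = graphPoly H := by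
  classical
  apply poly_ext_nat
  intro q
  unfold graphPoly
  rw [colorPoly_eval, colorPoly_eval]
  let E : V × Bool ≃ W × Bool := Equiv.prodCongr f.toEquiv (Equiv.refl Bool)
  refine Fintype.sum_equiv (Equiv.arrowCongr E (Equiv.refl (Fin q))) _ _ (fun c => ?_)
  have h := phi_comap G H f ((Equiv.arrowCongr E (Equiv.refl (Fin q))) c)
  rw [← h]
  congr 2
  funext x
  obtain ⟨u, i⟩ := x
  change c (u, i) = c (f.symm (f u), i)
  rw [f.symm_apply_apply]

/-! ## The 4-term relation -/

section FourTerm

variable {V : Type} [Fintype V]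

theorem edgeProd_toggle (G : SimpleGraph V) {a b : V} (hab : a ≠ b) (r : Setoid (V × Bool)) :
    edgeProd (toggleEdge G a b) r = edgeProd G r * chi r a b := by
  classical
  have h : ∀ e : Sym2 V, (if e ∈ (toggleEdge G a b).edgeSet then chi2 r e else 1)
      = (if e ∈ G.edgeSet then chi2 r e else 1) * (if e = s(a, b) then chi2 r e else 1) := by
    intro e
    have hsq := chi2_sq r e
    induction e with
    | _ u v =>
      by_cases he : s(u, v) = s(a, b)
      · have he' := he
        rw [Sym2.eq_iff] at he
        have huv : u ≠ v := by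
          rcases he with ⟨h1, h2⟩ | ⟨h1, h2⟩
          · rw [h1, h2]; exact hab
          · rw [h1, h2]; exact hab.symm
        have h3 : (s(u, v) ∈ (toggleEdge G a b).edgeSet) ↔ ¬ (s(u, v) ∈ G.edgeSet) := by
          rw [SimpleGraph.mem_edgeSet, SimpleGraph.mem_edgeSet]
          change (u ≠ v ∧ Xor (G.Adj u v) _) ↔ _
          unfold Xor
          tauto
        by_cases hG : s(u, v) ∈ G.edgeSet
        · rw [if_neg (fun h => (h3.mp h) hG), if_pos hG, if_pos he', hsq]
        · rw [if_pos (h3.mpr hG), if_neg hG, if_pos he', one_mul]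
      · have h3 : (s(u, v) ∈ (toggleEdge G a b).edgeSet) ↔ (s(u, v) ∈ G.edgeSet) := by
          rw [SimpleGraph.mem_edgeSet, SimpleGraph.mem_edgeSet]
          rw [Sym2.eq_iff] at he
          have hne : G.Adj u v → u ≠ v := fun h => h.ne
          change (u ≠ v ∧ Xor (G.Adj u v) _) ↔ _
          unfold Xor
          tauto
        simp only [h3, he, if_false, mul_one]
  unfold edgeProd
  rw [Finset.prod_congr rfl (fun e _ => h e), Finset.prod_mul_distrib]
  congr 1
  rw [Finset.prod_ite_eq' Finset.univ s(a, b) (chi2 r)]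
  simp [chi2_mk]

theorem prod_star {w : V} (f : Sym2 V → ℤ) (T : V → Prop) :
    (∏ e : Sym2 V, open Classical in if (∃ v, T v ∧ e = s(w, v)) then f e else 1)
      = ∏ v : V, open Classical in if T v then f s(w, v) else 1 := by
  classical
  rw [← Finset.prod_filter, ← Finset.prod_filter]
  have h : (Finset.univ.filter (fun e : Sym2 V => ∃ v, T v ∧ e = s(w, v)))
      = (Finset.univ.filter (fun v : V => T v)).image (fun v => s(w, v)) := by
    ext e
    simp only [Finset.mem_filter, Finset.mem_univ, true_and, Finset.mem_image]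
    constructor
    · rintro ⟨v, hv, rfl⟩
      exact ⟨v, hv, rfl⟩
    · rintro ⟨v, hv, rfl⟩
      exact ⟨v, hv, rfl⟩
  rw [h, Finset.prod_image]
  intro x _ y _ hxy
  exact Sym2.congr_right.mp hxy

theorem edgeProd_slide (G : SimpleGraph V) {a b : V} (r : Setoid (V × Bool)) :
    edgeProd (slide G a b) r = edgeProd G r
      * ∏ v : V, open Classical in if (v ≠ a ∧ G.Adj v b) then chi r a v else 1 := by
  classical
  have h : ∀ e : Sym2 V, (if e ∈ (slide G a b).edgeSet then chi2 r e else 1)
      = (if e ∈ G.edgeSet then chi2 r e else 1)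
        * (if (∃ v, (v ≠ a ∧ G.Adj v b) ∧ e = s(a, v)) then chi2 r e else 1) := by
    intro e
    have hsq := chi2_sq r e
    induction e with
    | _ x y =>
      have hkey : (∃ v, (v ≠ a ∧ G.Adj v b) ∧ s(x, y) = s(a, v))
          ↔ (x ≠ y ∧ ((x = a ∧ G.Adj y b) ∨ (y = a ∧ G.Adj x b))) := by
        constructor
        · rintro ⟨v, ⟨hva, hvb⟩, he⟩
          rw [Sym2.eq_iff] at he
          rcases he with ⟨h1, h2⟩ | ⟨h1, h2⟩
          · subst h1 h2
            exact ⟨fun h => hva h.symm, Or.inl ⟨rfl, hvb⟩⟩
          · subst h1 h2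
            exact ⟨hva, Or.inr ⟨rfl, hvb⟩⟩
        · rintro ⟨hxy, ⟨h1, h2⟩ | ⟨h1, h2⟩⟩
          · subst h1
            exact ⟨y, ⟨fun h => hxy h.symm, h2⟩, rfl⟩
          · subst h1
            exact ⟨x, ⟨hxy, h2⟩, Sym2.eq_swap⟩
      by_cases he : (∃ v, (v ≠ a ∧ G.Adj v b) ∧ s(x, y) = s(a, v))
      · have h3 : (s(x, y) ∈ (slide G a b).edgeSet) ↔ ¬ (s(x, y) ∈ G.edgeSet) := by
          rw [SimpleGraph.mem_edgeSet, SimpleGraph.mem_edgeSet]
          rw [hkey] at he
          change (x ≠ y ∧ Xor (G.Adj x y) _) ↔ _
          unfold Xor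
          tauto
        by_cases hG : s(x, y) ∈ G.edgeSet
        · rw [if_neg (fun h => (h3.mp h) hG), if_pos hG, if_pos he, hsq]
        · rw [if_pos (h3.mpr hG), if_neg hG, if_pos he, one_mul]
      · have h3 : (s(x, y) ∈ (slide G a b).edgeSet) ↔ (s(x, y) ∈ G.edgeSet) := by
          rw [SimpleGraph.mem_edgeSet, SimpleGraph.mem_edgeSet]
          rw [hkey] at he
          have hne : G.Adj x y → x ≠ y := fun h => h.ne
          change (x ≠ y ∧ Xor (G.Adj x y) _) ↔ _
          unfold Xor
          tauto
        rw [if_neg he]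
        simp only [h3, mul_one]
  unfold edgeProd
  rw [Finset.prod_congr rfl (fun e _ => h e), Finset.prod_mul_distrib]
  congr 1
  refine Eq.trans ?_ ((prod_star (w := a) (chi2 r) (fun v => v ≠ a ∧ G.Adj v b)).trans ?_)
  · refine Finset.prod_congr rfl (fun e _ => ?_)
    congr
  · refine Finset.prod_congr rfl (fun e _ => ?_)
    rw [chi2_mk]
    congr

omit [Fintype V] in
theorem chi_ker {γ : Type} [DecidableEq γ] (c : V × Bool → γ) (u v : V) :
    chi (Setoid.ker c) u v
      = ((if c (u, true) = c (v, true) then (-1 : ℤ) else 1)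
          * (if c (u, true) = c (v, false) then (-1 : ℤ) else 1))
        * ((if c (u, false) = c (v, true) then (-1 : ℤ) else 1)
          * (if c (u, false) = c (v, false) then (-1 : ℤ) else 1)) := by
  classical
  unfold chi
  simp only [Fintype.prod_bool, Setoid.ker_def]

variable [DecidableEq V]

/-- The two colours of `b` are changed by the transposition of the two colours of `a`. -/
def swapCol {γ : Type} [DecidableEq γ] (a b : V) (c : V × Bool → γ) : V × Bool → γ :=
  fun x => if x.1 = b then Equiv.swap (c (a, true)) (c (a, false)) (c x) else c x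

omit [Fintype V] in
theorem swapCol_b {γ : Type} [DecidableEq γ] (a b : V) (c : V × Bool → γ) (i : Bool) :
    swapCol a b c (b, i) = Equiv.swap (c (a, true)) (c (a, false)) (c (b, i)) := by
  simp [swapCol]

omit [Fintype V] in
theorem swapCol_ne {γ : Type} [DecidableEq γ] (a b : V) (c : V × Bool → γ) {v : V} (hv : v ≠ b)
    (i : Bool) : swapCol a b c (v, i) = c (v, i) := by
  simp [swapCol, hv]

omit [Fintype V] in
theorem swapCol_invol {γ : Type} [DecidableEq γ] {a b : V} (hab : a ≠ b) :
    Function.Involutive (swapCol (γ := γ) a b) := by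
  intro c
  funext x
  obtain ⟨v, i⟩ := x
  by_cases hv : v = b
  · subst hv
    rw [swapCol_b, swapCol_b, swapCol_ne a v c hab, swapCol_ne a v c hab, Equiv.swap_apply_self]
  · rw [swapCol_ne _ _ _ hv, swapCol_ne _ _ _ hv]

theorem sep_swapCol {γ : Type} [DecidableEq γ] (a b : V) (c : V × Bool → γ) :
    sep (Setoid.ker (swapCol a b c)) = sep (Setoid.ker c) := by
  classical
  unfold sep
  refine Finset.prod_congr rfl (fun v _ => ?_)
  by_cases hv : v = b
  · subst hv
    simp only [Setoid.ker_def, swapCol_b, EmbeddingLike.apply_eq_iff_eq]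
  · simp only [Setoid.ker_def, swapCol_ne a b c hv]

omit [Fintype V] in
theorem chi_swapCol_ab {γ : Type} [DecidableEq γ] {a b : V} (hab : a ≠ b) (c : V × Bool → γ) :
    chi (Setoid.ker (swapCol a b c)) a b = chi (Setoid.ker c) a b := by
  rw [chi_ker, chi_ker, swapCol_b, swapCol_b, swapCol_ne a b c hab, swapCol_ne a b c hab]
  generalize c (a, true) = x
  generalize c (a, false) = y
  generalize c (b, true) = z
  generalize c (b, false) = w
  have h1 : ∀ t : γ, (x = Equiv.swap x y t) ↔ (y = t) := by
    intro t
    rw [← Equiv.swap_apply_right x y, Equiv.swap_apply_right x y]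
    constructor
    · intro h
      have := congrArg (Equiv.swap x y) h
      rwa [Equiv.swap_apply_self, Equiv.swap_apply_left] at this
    · intro h
      rw [← h, Equiv.swap_apply_right]
  have h2 : ∀ t : γ, (y = Equiv.swap x y t) ↔ (x = t) := by
    intro t
    constructor
    · intro h
      have := congrArg (Equiv.swap x y) h
      rwa [Equiv.swap_apply_self, Equiv.swap_apply_right] at this
    · intro h
      rw [← h, Equiv.swap_apply_left]
  simp only [h1, h2]
  ring

omit [Fintype V] in
theorem chi_swapCol_b {γ : Type} [DecidableEq γ] {a b : V} (c : V × Bool → γ)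
    (ha : c (a, true) ≠ c (a, false)) (hb : c (b, true) ≠ c (b, false))
    (hχ : chi (Setoid.ker c) a b = -1) {v : V} (hv : v ≠ b) :
    chi (Setoid.ker (swapCol a b c)) b v
      = chi (Setoid.ker c) b v * chi (Setoid.ker c) a v := by
  rw [chi_ker] at hχ
  rw [chi_ker, chi_ker, chi_ker, swapCol_b, swapCol_b, swapCol_ne a b c hv, swapCol_ne a b c hv]
  revert ha hb hχ
  generalize c (a, true) = x
  generalize c (a, false) = y
  generalize c (b, true) = z
  generalize c (b, false) = w
  generalize c (v, true) = s
  generalize c (v, false) = t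
  intro ha hb hχ
  have key : (z = x ∧ w ≠ x ∧ w ≠ y) ∨ (z = y ∧ w ≠ x ∧ w ≠ y) ∨ (w = x ∧ z ≠ x ∧ z ≠ y)
      ∨ (w = y ∧ z ≠ x ∧ z ≠ y) := by
    by_contra hcon
    push Not at hcon
    obtain ⟨h1, h2, h3, h4⟩ := hcon
    by_cases e1 : z = x
    · subst e1
      have e2 : w = y := h1 rfl (Ne.symm hb)
      subst e2
      simp [ha, Ne.symm ha, hb] at hχ
    · by_cases e2 : z = y
      · subst e2
        by_cases e3 : w = x
        · subst e3
          simp [ha, Ne.symm ha] at hχ
        · exact absurd (h2 rfl e3) hb.symm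
      · by_cases e3 : w = x
        · exact absurd (h3 e3 e1) e2
        · by_cases e4 : w = y
          · exact absurd (h4 e4 e1) e2
          · simp [Ne.symm e1, Ne.symm e2, Ne.symm e3, Ne.symm e4] at hχ
  have hsq : ∀ p q : γ, (if p = q then (-1 : ℤ) else 1) * (if p = q then (-1 : ℤ) else 1) = 1 := by
    intro p q
    split_ifs <;> norm_num
  rcases key with ⟨h1, h2, h3⟩ | ⟨h1, h2, h3⟩ | ⟨h1, h2, h3⟩ | ⟨h1, h2, h3⟩
  · subst h1
    rw [Equiv.swap_apply_left, Equiv.swap_apply_of_ne_of_ne h2 h3]
    linear_combination (-(if y = s then (-1 : ℤ) else 1) * (if y = t then (-1 : ℤ) else 1)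
      * (if w = s then (-1 : ℤ) else 1) * (if w = t then (-1 : ℤ) else 1)
      * (if z = t then (-1 : ℤ) else 1) * (if z = t then (-1 : ℤ) else 1)) * hsq z s
      - ((if y = s then (-1 : ℤ) else 1) * (if y = t then (-1 : ℤ) else 1)
      * (if w = s then (-1 : ℤ) else 1) * (if w = t then (-1 : ℤ) else 1)) * hsq z t
  · subst h1
    rw [Equiv.swap_apply_right, Equiv.swap_apply_of_ne_of_ne h2 h3]
    linear_combination (-(if x = s then (-1 : ℤ) else 1) * (if x = t then (-1 : ℤ) else 1)
      * (if w = s then (-1 : ℤ) else 1) * (if w = t then (-1 : ℤ) else 1)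
      * (if z = t then (-1 : ℤ) else 1) * (if z = t then (-1 : ℤ) else 1)) * hsq z s
      - ((if x = s then (-1 : ℤ) else 1) * (if x = t then (-1 : ℤ) else 1)
      * (if w = s then (-1 : ℤ) else 1) * (if w = t then (-1 : ℤ) else 1)) * hsq z t
  · subst h1
    rw [Equiv.swap_apply_left, Equiv.swap_apply_of_ne_of_ne h2 h3]
    linear_combination (-(if y = s then (-1 : ℤ) else 1) * (if y = t then (-1 : ℤ) else 1)
      * (if z = s then (-1 : ℤ) else 1) * (if z = t then (-1 : ℤ) else 1)
      * (if w = t then (-1 : ℤ) else 1) * (if w = t then (-1 : ℤ) else 1)) * hsq w s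
      - ((if y = s then (-1 : ℤ) else 1) * (if y = t then (-1 : ℤ) else 1)
      * (if z = s then (-1 : ℤ) else 1) * (if z = t then (-1 : ℤ) else 1)) * hsq w t
  · subst h1
    rw [Equiv.swap_apply_right, Equiv.swap_apply_of_ne_of_ne h2 h3]
    linear_combination (-(if x = s then (-1 : ℤ) else 1) * (if x = t then (-1 : ℤ) else 1)
      * (if z = s then (-1 : ℤ) else 1) * (if z = t then (-1 : ℤ) else 1)
      * (if w = t then (-1 : ℤ) else 1) * (if w = t then (-1 : ℤ) else 1)) * hsq w s
      - ((if x = s then (-1 : ℤ) else 1) * (if x = t then (-1 : ℤ) else 1)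
      * (if z = s then (-1 : ℤ) else 1) * (if z = t then (-1 : ℤ) else 1)) * hsq w t

theorem edgeProd_swapCol (G : SimpleGraph V) {γ : Type} [DecidableEq γ] {a b : V} (hab : a ≠ b)
    (c : V × Bool → γ)
    (ha : c (a, true) ≠ c (a, false)) (hb : c (b, true) ≠ c (b, false))
    (hχ : chi (Setoid.ker c) a b = -1) :
    edgeProd G (Setoid.ker (swapCol a b c)) = edgeProd (slide G a b) (Setoid.ker c) := by
  classical
  rw [edgeProd_slide]
  set r := Setoid.ker c with hr
  set r' := Setoid.ker (swapCol a b c) with hr'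
  have h0 : ∀ u v : V, u ≠ b → v ≠ b → chi r' u v = chi r u v := by
    intro u v hu hv
    rw [hr, hr', chi_ker, chi_ker, swapCol_ne _ _ _ hu, swapCol_ne _ _ _ hu,
      swapCol_ne _ _ _ hv, swapCol_ne _ _ _ hv]
  have h : ∀ e : Sym2 V, (if e ∈ G.edgeSet then chi2 r' e else 1)
      = (if e ∈ G.edgeSet then chi2 r e else 1)
        * (if (∃ v, (v ≠ a ∧ G.Adj v b) ∧ e = s(b, v)) then chi2 r' e * chi2 r e else 1) := by
    intro e
    have hsq := chi2_sq r e
    by_cases hG : e ∈ G.edgeSet
    · rw [if_pos hG, if_pos hG]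
      by_cases he : (∃ v, (v ≠ a ∧ G.Adj v b) ∧ e = s(b, v))
      · rw [if_pos he]
        linear_combination (-chi2 r' e) * hsq
      · rw [if_neg he, mul_one]
        induction e with
        | _ x y =>
          rw [SimpleGraph.mem_edgeSet] at hG
          rw [chi2_mk, chi2_mk]
          by_cases hx : x = b
          · subst hx
            by_cases hy : y = a
            · subst hy
              rw [chi_comm r', chi_comm r, hr, hr', chi_swapCol_ab hab]
            · exact absurd ⟨y, ⟨hy, hG.symm⟩, rfl⟩ he
          · by_cases hy : y = b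
            · subst hy
              by_cases hx' : x = a
              · subst hx'
                rw [hr, hr', chi_swapCol_ab hab]
              · exact absurd ⟨x, ⟨hx', hG⟩, Sym2.eq_swap⟩ he
            · exact h0 x y hx hy
    · rw [if_neg hG, if_neg hG, one_mul, if_neg]
      rintro ⟨v, ⟨hva, hvb⟩, rfl⟩
      exact hG ((SimpleGraph.mem_edgeSet G).mpr hvb.symm)
  unfold edgeProd
  rw [Finset.prod_congr rfl (fun e _ => h e), Finset.prod_mul_distrib]
  congr 1
  refine Eq.trans ?_ ((prod_star (w := b) (fun e => chi2 r' e * chi2 r e)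
    (fun v => v ≠ a ∧ G.Adj v b)).trans ?_)
  · refine Finset.prod_congr rfl (fun e _ => ?_)
    congr
  · refine Finset.prod_congr rfl (fun v _ => ?_)
    by_cases hv : v ≠ a ∧ G.Adj v b
    · rw [if_pos hv, if_pos hv, chi2_mk, chi2_mk, hr', chi_swapCol_b c ha hb hχ hv.2.ne]
      have := chi_sq r b v
      rw [← hr]
      linear_combination (chi r a v) * this
    · rw [if_neg hv, if_neg hv]

theorem phi_fourTerm (G : SimpleGraph V) {γ : Type} [DecidableEq γ] {a b : V} (hab : a ≠ b)
    (c : V × Bool → γ) :
    phi G (Setoid.ker (swapCol a b c)) - phi (toggleEdge G a b) (Setoid.ker (swapCol a b c))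
      = phi (slide G a b) (Setoid.ker c) - phi (toggleEdge (slide G a b) a b) (Setoid.ker c) := by
  classical
  unfold phi
  rw [edgeProd_toggle G hab, edgeProd_toggle (slide G a b) hab, sep_swapCol, chi_swapCol_ab hab]
  by_cases hsep : sep (Setoid.ker c) = 0
  · rw [hsep]; ring
  · have hne : ∀ u : V, c (u, true) ≠ c (u, false) := by
      intro u hu
      apply hsep
      unfold sep
      apply Finset.prod_eq_zero (Finset.mem_univ u)
      rw [if_pos]
      exact hu
    have hχ : chi (Setoid.ker c) a b = 1 ∨ chi (Setoid.ker c) a b = -1 := by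
      have := chi_sq (Setoid.ker c) a b
      exact mul_self_eq_one_iff.mp this
    rcases hχ with hχ | hχ
    · rw [hχ]; ring
    · rw [edgeProd_swapCol G hab c (hne a) (hne b) hχ]

end FourTerm

/-- The 4-term relation for the polynomials. -/
theorem graphPoly_fourTerm {V : Type} [Fintype V] (G : SimpleGraph V) {a b : V} (hab : a ≠ b) :
    graphPoly G - graphPoly (toggleEdge G a b)
      = graphPoly (slide G a b) - graphPoly (toggleEdge (slide G a b) a b) := by
  classical
  apply poly_ext_nat
  intro q
  unfold graphPoly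
  rw [Polynomial.eval_sub, Polynomial.eval_sub, colorPoly_eval, colorPoly_eval, colorPoly_eval,
    colorPoly_eval, ← Finset.sum_sub_distrib, ← Finset.sum_sub_distrib]
  rw [← Equiv.sum_comp ((swapCol_invol (γ := Fin q) hab).toPerm)]
  refine Finset.sum_congr rfl (fun c _ => ?_)
  exact phi_fourTerm G hab c

/-- The 4-invariant. -/
noncomputable def xi : GraphInvariant where
  toFun := fun V _ G =>
    (-(1 / 64 : ℂ)) ^ (Fintype.card V) * (((graphPoly G).eval (-2) : ℤ) : ℂ)
  iso := by
    intro V W _ _ G H ⟨f⟩
    rw [graphPoly_iso G H f, Fintype.card_congr f.toEquiv]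

theorem xi_fourInvariant : xi.IsFourInvariant := by
  intro V _ G a b hab
  have h := congrArg (fun p => (((Polynomial.eval (-2) p : ℤ)) : ℂ)) (graphPoly_fourTerm G hab)
  simp only [Polynomial.eval_sub, Int.cast_sub] at h
  simp only [xi]
  rw [← mul_sub, ← mul_sub, h]

end Pool.Agent.Helper74.Sl2Ext
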