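import Pool.Agent.Helper74.Sl2Ext.Strands

/-!
# The main theorem
-/

open Finset Polynomial

namespace Pool.Agent.Helper74.Sl2Ext

section Strands

variable {V : Type} [Fintype V] [DecidableEq V] {N : ℕ}

omit [Fintype V] [DecidableEq V] in
theorem mem_blk (ε : V → Bool) (x : V × Bool) (z : (V × Bool) × Bool) :
    z ∈ blk ε x ↔ z.1.1 = x.1 ∧ z.2 = x.2 := by
  obtain ⟨⟨u, s⟩, b⟩ := z
  obtain ⟨v, b'⟩ := x
  unfold blk
  cases b' <;> cases ε v <;> cases s <;> cases b <;> simp

omit [Fintype V] [DecidableEq V] in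
theorem blk_nodup (ε : V → Bool) (x : V × Bool) : (blk ε x).Nodup := by
  obtain ⟨v, b'⟩ := x
  unfold blk
  cases b' <;> cases ε v <;> simp

omit [Fintype V] [DecidableEq V] in
theorem blk_length (ε : V → Bool) (x : V × Bool) : (blk ε x).length = 2 := by
  obtain ⟨v, b'⟩ := x
  unfold blk
  cases b' <;> cases ε v <;> simp

omit [Fintype V] [DecidableEq V] in
theorem mem_sword (π : Fin N ≃ V × Bool) (ε : V → Bool) (z : (V × Bool) × Bool) :
    z ∈ sword π ε := by
  unfold sword
  rw [List.mem_flatMap]
  refine ⟨(z.1.1, z.2), ?_, ?_⟩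
  · rw [List.mem_ofFn]
    exact ⟨π.symm (z.1.1, z.2), by simp⟩
  · rw [mem_blk]
    exact ⟨rfl, rfl⟩

omit [Fintype V] [DecidableEq V] in
theorem sword_good (π : Fin N ≃ V × Bool) (ε : V → Bool) : Good (sword π ε) := by
  refine ⟨?_, fun x _ => mem_sword π ε _⟩
  unfold sword
  rw [List.nodup_flatMap]
  refine ⟨fun x _ => blk_nodup ε x, ?_⟩
  have h := List.nodup_ofFn.mpr π.injective
  refine h.imp ?_
  intro x y hxy z hz1 hz2
  rw [mem_blk] at hz1 hz2
  apply hxy
  apply Prod.ext
  · rw [← hz1.1, ← hz2.1]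
  · rw [← hz1.2, ← hz2.2]

omit [DecidableEq V] in
theorem sword_length (π : Fin N ≃ V × Bool) (ε : V → Bool) :
    (sword π ε).length = 2 * (2 * Fintype.card V) := by
  unfold sword
  rw [List.length_flatMap]
  have h1 : (List.ofFn π).map (fun x => (blk ε x).length) = List.replicate N 2 := by
    rw [List.map_ofFn]
    simp only [Function.comp_def, blk_length]
    exact List.ofFn_const N 2
  rw [h1, List.sum_replicate, smul_eq_mul]
  have h2 : N = Fintype.card V * 2 := by
    have := Fintype.card_congr π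
    rwa [Fintype.card_fin, Fintype.card_prod, Fintype.card_bool] at this
  omega

/-- The factors at the two ends of a doubled chord. -/
def zdbl {A : Type} [Ring A] (X Y : A) (b : Bool) (t : Bool × Bool × Bool) : A :=
  if b then el X Y true t.2.1 * el X Y true t.2.2
  else if t.1 then el X Y false t.2.1 * el X Y false t.2.2
  else el X Y false t.2.2 * el X Y false t.2.1

/-- Choices for the doubled chords. -/
def splitEquiv (V : Type) : (V → Bool × Bool × Bool) ≃ (V → Bool) × (V × Bool → Bool) where
  toFun T := (fun u => (T u).1, fun x => if x.2 then (T x.1).2.1 else (T x.1).2.2)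
  invFun p := fun u => (p.1 u, p.2 (u, true), p.2 (u, false))
  left_inv T := by
    funext u
    simp
  right_inv p := by
    apply Prod.ext
    · rfl
    · funext x
      obtain ⟨u, b⟩ := x
      cases b <;> simp

omit [Fintype V] [DecidableEq V] in
theorem wprod_sword {A : Type} [Ring A] (X Y : A) (π : Fin N ≃ V × Bool) (ε : V → Bool)
    (s : V × Bool → Bool) :
    wprod X Y s (sword π ε) = (List.ofFn (fun k =>
      zdbl X Y (π k).2 (ε (π k).1, s ((π k).1, true), s ((π k).1, false)))).prod := by
  unfold wprod sword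
  have h : ∀ L : List (V × Bool),
      ((L.flatMap (blk ε)).map (fun x => el X Y x.2 (s x.1))).prod
        = (L.map (fun x => zdbl X Y x.2 (ε x.1, s (x.1, true), s (x.1, false)))).prod := by
    intro L
    induction L with
    | nil => simp
    | cons x L ih =>
      rw [List.flatMap_cons, List.map_append, List.prod_append, ih, List.map_cons, List.prod_cons]
      congr 1
      obtain ⟨u, b⟩ := x
      unfold blk zdbl
      cases b <;> cases ε u <;> simp
  rw [h, List.map_ofFn]
  rfl

theorem csum_zdbl {A : Type} [Ring A] [Algebra ℂ A] (X Y : A) (π : Fin N ≃ V × Bool) :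
    csum π (fun _ b t => zdbl X Y b t) = ∑ ε : V → Bool, wsum X Y (sword π ε) := by
  unfold csum wsum
  rw [← Fintype.sum_prod_type' (f := fun (ε : V → Bool) (s : V × Bool → Bool) =>
    wprod X Y s (sword π ε))]
  refine Fintype.sum_equiv (splitEquiv V) _ _ (fun T => ?_)
  rw [wprod_sword]
  rfl

end Strands

/-- The coefficients of the factors at the ends of a doubled chord. -/
def dblCoef (b : Bool) (t : Bool × Bool × Bool) : Fin 4 → ℂ :=
  if b then
    (match t.2.1, t.2.2 with
      | true, true => (![1, 0, 0, 0] : Fin 4 → ℂ)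
      | true, false => ![0, 1, 0, 0]
      | false, true => ![0, 0, 1, 0]
      | false, false => ![0, 0, 0, 1])
  else
    (match t.1, t.2.1, t.2.2 with
      | true, true, true => (![0, 0, 0, 1] : Fin 4 → ℂ)
      | true, true, false => ![0, 0, -1, 0]
      | true, false, true => ![0, -1, 0, 0]
      | true, false, false => ![1, 0, 0, 0]
      | false, true, true => ![0, 0, 0, 1]
      | false, true, false => ![0, -1, 0, 0]
      | false, false, true => ![0, 0, -1, 0]
      | false, false, false => ![1, 0, 0, 0])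

theorem zdbl_coef {A : Type} [Ring A] [Algebra ℂ A] (X Y : A) (b : Bool)
    (t : Bool × Bool × Bool) :
    zdbl X Y b t = ∑ i, dblCoef b t i • (![X * X, X * Y, Y * X, Y * Y] : Fin 4 → A) i := by
  obtain ⟨t1, t2, t3⟩ := t
  rw [Fin.sum_univ_four]
  cases b <;> cases t1 <;> cases t2 <;> cases t3 <;> simp [zdbl, el, dblCoef]

/-! ## The oscillator representation -/

/-- The oscillator representation of the enveloping algebra on polynomials. -/
noncomputable def osc : U2 →ₐ[ℂ] Module.End ℂ ℂ[X] := tripleHom (osc_triple weyl_rel)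

theorem osc_csum {V : Type} [Fintype V] [DecidableEq V] {N : ℕ} (π : Fin N ≃ V × Bool) :
    osc (csum π (fun _ b t => zfac b t))
      = (-(1 / 32) : ℂ) ^ (Fintype.card V) • csum π (fun _ b t => zdbl opX opD b t) := by
  have h1 : osc (csum π (fun _ b t => zfac b t)) = csum π (fun _ b t => osc (zfac b t)) := by
    unfold csum
    rw [map_sum]
    refine Finset.sum_congr rfl (fun t _ => ?_)
    rw [map_list_prod, List.map_ofFn]
    rfl
  rw [h1]
  have hE : osc uE = (1 / 2 : ℂ) • (opX * opX) := tripleHom_E _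
  have hF : osc uF = -((1 / 2 : ℂ) • (opD * opD)) := tripleHom_F _
  have hH : osc uH = (1 / 2 : ℂ) • (opX * opD + opD * opX) := tripleHom_H _
  refine csum_replace π _ _ (![opX * opX, opX * opD, opD * opX, opD * opD] : Fin 4 → _)
    (fun _ b t i => if b then
        (![![1 / 2, 0, 0, 0], ![0, 0, 0, -(1 / 2)], ![0, 1 / 2, 1 / 2, 0]]
          : Fin 3 → Fin 4 → ℂ) t i
      else (![![0, 0, 0, -(1 / 8)], ![1 / 8, 0, 0, 0], ![0, 1 / 16, 1 / 16, 0]]
          : Fin 3 → Fin 4 → ℂ) t i)
    (fun _ b t i => dblCoef b t i)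
    (-(1 / 32)) ?_ ?_ ?_
  · intro u b t
    rw [Fin.sum_univ_four]
    cases b <;> fin_cases t <;>
      simp [zfac, leftFactor, rightFactor, hE, hF, hH, smul_smul, smul_add] <;> norm_num
  · intro u b t
    exact zdbl_coef opX opD b t
  · intro u i j
    rw [Fin.sum_univ_three]
    simp only [Fintype.sum_prod_type, Fintype.sum_bool]
    fin_cases i <;> fin_cases j <;> simp [dblCoef] <;> norm_num

theorem osc_value {V : Type} [Fintype V] [DecidableEq V] {N : ℕ} (π : Fin N ≃ V × Bool)
    (hπ : ∀ u, π.symm (u, true) < π.symm (u, false)) :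
    osc (csum π (fun _ b t => zfac b t))
      = algebraMap ℂ (Module.End ℂ ℂ[X]) (xi.toFun V (igraph π)) := by
  have hmain : ∀ ε : V → Bool,
      ((((wordPoly (sord π) (sword π ε)).eval (-2) : ℤ)) : Module.End ℂ ℂ[X])
        = (((4 : ℤ) ^ (Fintype.card V) : ℤ) : Module.End ℂ ℂ[X])
          * wsum opX opD (sword π ε) := by
    intro ε
    rw [main_words (sord π) (sord_injective π) weyl_rel _ _ (sword_length π ε) (sword_good π ε)]
    congr 2
    rw [Fintype.card_prod, Fintype.card_bool, mul_comm 2, pow_mul, pow_mul, ← mul_pow]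
    rw [← mul_pow, ← pow_mul, mul_comm (Fintype.card V) 2, pow_mul]
    norm_num
  have hsum := congrArg (fun p => ((Polynomial.eval (-2) p : ℤ) : Module.End ℂ ℂ[X]))
    (sum_wordPoly π hπ)
  simp only [Polynomial.eval_finsetSum, Int.cast_sum, hmain, Polynomial.eval_mul,
    Polynomial.eval_C, Int.cast_mul] at hsum
  rw [← Finset.mul_sum, ← csum_zdbl] at hsum
  rw [osc_csum]
  have h4 : (4 : ℂ) ^ (Fintype.card V) ≠ 0 := pow_ne_zero _ (by norm_num)
  have h5 : ((4 : ℂ) ^ (Fintype.card V)) • csum π (fun _ b t => zdbl opX opD b t)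
      = ((2 : ℂ) ^ (Fintype.card V) * (((graphPoly (igraph π)).eval (-2) : ℤ) : ℂ))
        • (1 : Module.End ℂ ℂ[X]) := by
    have e1 : ∀ (z : ℤ) (w : Module.End ℂ ℂ[X]), (z : Module.End ℂ ℂ[X]) * w = (z : ℂ) • w := by
      intro z w
      rw [← zsmul_eq_mul]
      exact (Int.cast_smul_eq_zsmul ℂ z w).symm
    rw [e1] at hsum
    rw [← Int.cast_mul, ← mul_one ((_ : ℤ) : Module.End ℂ ℂ[X]), e1] at hsum
    push_cast at hsum
    exact hsum
  have h6 : csum π (fun _ b t => zdbl opX opD b t)
      = (((4 : ℂ) ^ (Fintype.card V))⁻¹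
        * ((2 : ℂ) ^ (Fintype.card V) * (((graphPoly (igraph π)).eval (-2) : ℤ) : ℂ)))
        • (1 : Module.End ℂ ℂ[X]) := by
    rw [mul_smul, ← h5, inv_smul_smul₀ h4]
  rw [h6, smul_smul, Algebra.algebraMap_eq_smul_one]
  congr 1
  simp only [xi]
  rw [← mul_assoc, ← mul_assoc, ← inv_pow, ← mul_pow, ← mul_pow]
  norm_num

/-! ## Chord diagrams -/

variable {n : ℕ}

theorem chordAt_of_lt (D : ChordDiagram n) {k : Fin (2 * n)} (h : k < D.σ k) :
    D.chordAt k = ⟨k, h⟩ := by
  unfold ChordDiagram.chordAt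
  rw [dif_pos h]

theorem chordAt_of_not_lt (D : ChordDiagram n) {k : Fin (2 * n)} (h : ¬ k < D.σ k) :
    (D.chordAt k).1 = D.σ k := by
  unfold ChordDiagram.chordAt
  rw [dif_neg h]

/-- The numbering of the ends of the chords. -/
def ChordDiagram.ends (D : ChordDiagram n) : Fin (2 * n) ≃ D.Chord × Bool where
  toFun k := (D.chordAt k, decide (k < D.σ k))
  invFun x := if x.2 then x.1.1 else D.σ x.1.1
  left_inv k := by
    by_cases h : k < D.σ k
    · simp only [h, decide_true, if_true, chordAt_of_lt D h]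
    · simp only [h, decide_false, Bool.false_eq_true, if_false, chordAt_of_not_lt D h, D.invol]
  right_inv x := by
    obtain ⟨⟨u, hu⟩, b⟩ := x
    cases b
    · have h : ¬ (D.σ u < D.σ (D.σ u)) := by
        rw [D.invol]
        exact not_lt.mpr hu.le
      simp only [Bool.false_eq_true, if_false, h, decide_false]
      congr 1
      apply Subtype.ext
      rw [chordAt_of_not_lt D h, D.invol]
    · simp only [if_true]
      rw [chordAt_of_lt D hu]
      simp [hu]

theorem sl2Weight_eq (D : ChordDiagram n) :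
    sl2Weight D = csum D.ends (fun _ b t => zfac b t) := by
  unfold sl2Weight csum
  refine Finset.sum_congr rfl (fun t _ => ?_)
  congr 2
  funext k
  change _ = zfac (decide (k < D.σ k)) (t (D.chordAt k))
  unfold zfac
  by_cases h : k < D.σ k <;> simp [h]

theorem ends_lt (D : ChordDiagram n) (u : D.Chord) :
    D.ends.symm (u, true) < D.ends.symm (u, false) := u.2

theorem igraph_ends (D : ChordDiagram n) : igraph D.ends = D.interGraph := rfl

theorem exists_casimir_poly (D : ChordDiagram n) :
    ∃! p : ℂ[X], aeval casimir p = sl2Weight D := by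
  obtain ⟨p, hp⟩ := exists_poly (csum_mem D.ends) (csum_commF D.ends)
  rw [← sl2Weight_eq] at hp
  exact ⟨p, hp, fun q hq => poly_unique (hq.trans hp.symm)⟩

theorem value_eq (D : ChordDiagram n) (p : ℂ[X]) (hp : aeval casimir p = sl2Weight D) :
    xi.toFun D.Chord D.interGraph = p.eval (-(3 / 32)) := by
  have h1 := osc_value D.ends (ends_lt D)
  rw [← sl2Weight_eq, ← hp, igraph_ends, ← Polynomial.aeval_algHom_apply] at h1
  have h2 : osc casimir = algebraMap ℂ (Module.End ℂ ℂ[X]) (-(3 / 32)) := by
    rw [Algebra.algebraMap_eq_smul_one]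
    exact osc_casimir weyl_rel
  rw [h2, Polynomial.aeval_algebraMap_apply] at h1
  have hinj : Function.Injective (algebraMap ℂ (Module.End ℂ ℂ[X])) :=
    FaithfulSMul.algebraMap_injective ℂ (Module.End ℂ ℂ[X])
  have h3 := hinj h1
  rw [← h3]
  simp

end Pool.Agent.Helper74.Sl2Ext
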