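import Pool.Agent.Helper74.Sl2Ext.Words
import Pool.Agent.Helper74.Sl2Ext.Graph
import Pool.Agent.Helper74.Sl2Ext.Center

/-!
# From chord diagrams to words in strands
-/

open Finset Polynomial

namespace Pool.Agent.Helper74.Sl2Ext

/-! ## Products over pairs -/

theorem pairProd_append {β : Type} (t : β → β → ℤ) (l₂ : List β) : ∀ l₁ : List β,
    pairProd t (l₁ ++ l₂) = pairProd t l₁ * pairProd t l₂
      * (l₁.map (fun a => (l₂.map (t a)).prod)).prod
  | [] => by simp [pairProd]
  | x :: l₁ => by
      have ih := pairProd_append t l₂ l₁
      simp only [List.cons_append, pairProd, List.map_cons, List.prod_cons, List.map_append,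
        List.prod_append, ih]
      ring

theorem prod_map_flatMap {β γ : Type} (B : γ → List β) (f : β → ℤ) : ∀ L : List γ,
    ((L.flatMap B).map f).prod = (L.map (fun x => ((B x).map f).prod)).prod
  | [] => by simp
  | x :: L => by
      simp only [List.flatMap_cons, List.map_append, List.prod_append, List.map_cons,
        List.prod_cons, prod_map_flatMap B f L]

theorem pairProd_flatMap {β γ : Type} (t : β → β → ℤ) (B : γ → List β) : ∀ L : List γ,
    pairProd t (L.flatMap B) = (L.map (fun x => pairProd t (B x))).prod
      * pairProd (fun x y => ((B x).map (fun a => ((B y).map (t a)).prod)).prod) L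
  | [] => by simp [pairProd]
  | x :: L => by
      have ih := pairProd_flatMap t B L
      simp only [List.flatMap_cons, pairProd_append, ih, pairProd, List.map_cons, List.prod_cons]
      have h : ((B x).map (fun a => ((L.flatMap B).map (t a)).prod)).prod
          = (L.map (fun y => ((B x).map (fun a => ((B y).map (t a)).prod)).prod)).prod := by
        simp only [prod_map_flatMap]
        generalize B x = K
        induction K with
        | nil => simp
        | cons a K ihK =>
          simp only [List.map_cons, List.prod_cons, ihK, List.prod_map_mul]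
      rw [h]
      ring

theorem pairProd_ofFn {β : Type} (t : β → β → ℤ) : ∀ (N : ℕ) (g : Fin N → β),
    pairProd t (List.ofFn g) = ∏ i, ∏ j, if i < j then t (g i) (g j) else 1
  | 0, g => by simp [pairProd]
  | N + 1, g => by
      have ih := pairProd_ofFn t N (fun i => g i.succ)
      rw [List.ofFn_succ]
      simp only [pairProd]
      rw [ih, Fin.prod_univ_succ]
      congr 1
      · rw [Fin.prod_univ_succ, List.map_ofFn, List.prod_ofFn]
        simp
      · refine Finset.prod_congr rfl (fun i _ => ?_)
        rw [Fin.prod_univ_succ]
        simp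

/-! ## Strands -/

section Strands

variable {V : Type} [Fintype V] [DecidableEq V] {N : ℕ}

/-- The two ends of strands at an end of a chord. -/
def blk (ε : V → Bool) (x : V × Bool) : List ((V × Bool) × Bool) :=
  if x.2 then [((x.1, true), true), ((x.1, false), true)]
  else if ε x.1 then [((x.1, true), false), ((x.1, false), false)]
  else [((x.1, false), false), ((x.1, true), false)]

/-- The word in the strands. -/
def sword (π : Fin N ≃ V × Bool) (ε : V → Bool) : List ((V × Bool) × Bool) :=
  (List.ofFn π).flatMap (blk ε)

/-- The order of the strands. -/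
def sord (π : Fin N ≃ V × Bool) (x : V × Bool) : ℕ :=
  2 * (π.symm (x.1, true)).val + (if x.2 then 0 else 1)

omit [Fintype V] [DecidableEq V] in
theorem sord_injective (π : Fin N ≃ V × Bool) : Function.Injective (sord π) := by
  rintro ⟨u, b⟩ ⟨v, b'⟩ h
  unfold sord at h
  have h1 : (π.symm (u, true)).val = (π.symm (v, true)).val ∧ b = b' := by
    cases b <;> cases b' <;> simp at h ⊢ <;> omega
  have h2 : (u, true) = (v, true) := π.symm.injective (Fin.ext h1.1)
  simp only [Prod.mk.injEq, and_true] at h2
  rw [h2, h1.2]

/-- The intersection graph of the chords. -/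
def igraph (π : Fin N ≃ V × Bool) : SimpleGraph V where
  Adj u v := (π.symm (u, true) < π.symm (v, true) ∧ π.symm (v, true) < π.symm (u, false)
      ∧ π.symm (u, false) < π.symm (v, false)) ∨
    (π.symm (v, true) < π.symm (u, true) ∧ π.symm (u, true) < π.symm (v, false)
      ∧ π.symm (v, false) < π.symm (u, false))
  symm := ⟨fun _ _ h => Or.symm h⟩
  loopless := ⟨fun u h => by
    rcases h with h | h <;> exact lt_irrefl _ h.1⟩

open Classical in
/-- `-1` if the two strands of a chord have the same colour. -/
noncomputable def mu (r : Setoid (V × Bool)) (u : V) : ℤ :=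
  if r (u, true) (u, false) then -1 else 1

omit [Fintype V] [DecidableEq V] in
theorem kappa_blk (π : Fin N ≃ V × Bool) (r : Setoid (V × Bool)) (ε : V → Bool) (u : V) (b : Bool) :
    pairProd (tau (sord π) r) (blk ε (u, b))
      = if b then 1 else (if ε u then 1 else mu r u) := by
  classical
  have hs : r (u, false) (u, true) ↔ r (u, true) (u, false) :=
    ⟨fun h => r.symm h, fun h => r.symm h⟩
  cases b
  · by_cases he : ε u = true
    · simp [blk, he, pairProd, tau, sord]
    · have he' : ε u = false := by simpa using he
      simp [blk, he', pairProd, tau, sord, mu, hs]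
  · simp [blk, pairProd, tau, sord]

/-- The product of the signs over the pairs of ends of strands at two ends of chords. -/
noncomputable def tt (π : Fin N ≃ V × Bool) (r : Setoid (V × Bool)) (ε : V → Bool)
    (x y : V × Bool) : ℤ :=
  ((blk ε x).map (fun a => ((blk ε y).map (tau (sord π) r a)).prod)).prod

omit [Fintype V] in
theorem tt_ne (π : Fin N ≃ V × Bool) (r : Setoid (V × Bool)) (ε : V → Bool) {u v : V}
    (huv : u ≠ v) (b b' : Bool) :
    tt π r ε (u, b) (v, b')
      = if π.symm (v, true) < π.symm (u, true) then chi r u v else 1 := by
  classical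
  have hne : (π.symm (v, true)).val ≠ (π.symm (u, true)).val := by
    intro h
    have h2 : (v, true) = (u, true) := π.symm.injective (Fin.ext h)
    simp only [Prod.mk.injEq, and_true] at h2
    exact huv h2.symm
  have key : ∀ s s' c c' : Bool, tau (sord π) r ((u, s), c) ((v, s'), c')
      = if π.symm (v, true) < π.symm (u, true) then (if r (u, s) (v, s') then (-1 : ℤ) else 1)
        else 1 := by
    intro s s' c c'
    have h1 : sord π (v, s') < sord π (u, s) ↔ π.symm (v, true) < π.symm (u, true) := by
      unfold sord
      rw [Fin.lt_def]
      cases s <;> cases s' <;> simp <;> omega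
    have h2 : (u, s) ≠ (v, s') := by
      intro h
      exact huv (Prod.mk.inj h).1
    unfold tau
    simp only [h1, h2, false_and, or_false]
    by_cases h3 : π.symm (v, true) < π.symm (u, true)
    · simp only [h3, and_true, if_true]
    · simp only [h3, and_false, if_false]
  have hchi : chi r u v = ((if r (u, true) (v, true) then (-1 : ℤ) else 1)
          * (if r (u, true) (v, false) then (-1 : ℤ) else 1))
        * ((if r (u, false) (v, true) then (-1 : ℤ) else 1)
          * (if r (u, false) (v, false) then (-1 : ℤ) else 1)) := by
    unfold chi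
    simp only [Fintype.prod_bool]
  unfold tt
  rw [hchi]
  by_cases h3 : π.symm (v, true) < π.symm (u, true)
  · cases b <;> cases b' <;> cases hu : ε u <;> cases hv : ε v <;>
      simp only [blk, hu, hv, key, h3, if_true, List.map_cons, List.map_nil, List.prod_cons,
        List.prod_nil, mul_one, Bool.false_eq_true, if_false] <;> ring
  · cases b <;> cases b' <;> cases hu : ε u <;> cases hv : ε v <;>
      simp only [blk, hu, hv, key, h3, if_true, List.map_cons, List.map_nil, List.prod_cons,
        List.prod_nil, mul_one, Bool.false_eq_true, if_false]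

omit [Fintype V] [DecidableEq V] in
theorem tt_self (π : Fin N ≃ V × Bool) (r : Setoid (V × Bool)) (ε : V → Bool) (u : V) :
    tt π r ε (u, true) (u, false) = mu r u := by
  classical
  have hs : r (u, false) (u, true) ↔ r (u, true) (u, false) :=
    ⟨fun h => r.symm h, fun h => r.symm h⟩
  unfold tt
  cases hu : ε u <;>
    simp [blk, hu, tau, sord, mu, hs]

theorem kappa_sword (π : Fin N ≃ V × Bool) (hπ : ∀ u, π.symm (u, true) < π.symm (u, false))
    (r : Setoid (V × Bool)) (ε : V → Bool) :
    kappa (sord π) r (sword π ε)
      = (∏ u, (mu r u * (if ε u then 1 else mu r u))) * edgeProd (igraph π) r := by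
  classical
  unfold kappa sword
  rw [pairProd_flatMap, pairProd_ofFn, List.map_ofFn, List.prod_ofFn]
  have h1 : (∏ i, ((fun x => pairProd (tau (sord π) r) (blk ε x)) ∘ π) i)
      = ∏ u : V, (if ε u then (1 : ℤ) else mu r u) := by
    simp only [Function.comp_def]
    rw [Equiv.prod_comp π (fun x => pairProd (tau (sord π) r) (blk ε x)),
      Fintype.prod_prod_type]
    refine Finset.prod_congr rfl (fun u _ => ?_)
    rw [Fintype.prod_bool, kappa_blk, kappa_blk]
    simp
  have h2 : (∏ i, ∏ j, if i < j then
        ((blk ε (π i)).map (fun a => ((blk ε (π j)).map (tau (sord π) r a)).prod)).prod else 1)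
      = (∏ u : V, mu r u) * edgeProd (igraph π) r := by
    have e1 : (∏ i, ∏ j, if i < j then
          ((blk ε (π i)).map (fun a => ((blk ε (π j)).map (tau (sord π) r a)).prod)).prod else 1)
        = ∏ x : V × Bool, ∏ y : V × Bool,
            if π.symm x < π.symm y then tt π r ε x y else 1 := by
      rw [← Equiv.prod_comp π]
      refine Finset.prod_congr rfl (fun i _ => ?_)
      rw [← Equiv.prod_comp π]
      refine Finset.prod_congr rfl (fun j _ => ?_)
      simp only [Equiv.symm_apply_apply]
      rfl
    have e2 : (∏ x : V × Bool, ∏ y : V × Bool,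
            if π.symm x < π.symm y then tt π r ε x y else 1)
        = ∏ u : V, ∏ v : V, ((if u = v then mu r u else 1)
          * (if (π.symm (v, true) < π.symm (u, true) ∧ π.symm (u, true) < π.symm (v, false)
              ∧ π.symm (v, false) < π.symm (u, false)) then chi r u v else 1)) := by
      rw [Fintype.prod_prod_type]
      refine Finset.prod_congr rfl (fun u _ => ?_)
      simp only [Fintype.prod_prod_type]
      rw [Finset.prod_comm]
      refine Finset.prod_congr rfl (fun v _ => ?_)
      simp only [Fintype.prod_bool]
      by_cases huv : u = v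
      · subst huv
        have h3 := hπ u
        have h4 : ¬ (π.symm (u, false) < π.symm (u, true)) := not_lt.mpr h3.le
        simp [h3, h4, tt_self]
      · simp only [tt_ne π r ε huv, huv, if_false, one_mul]
        have hu := hπ u
        have hv := hπ v
        have hsq := chi_sq r u v
        by_cases c1 : π.symm (v, true) < π.symm (u, true)
        · have c2 : ¬ (π.symm (u, true) < π.symm (v, true)) := not_lt.mpr c1.le
          have c3 : ¬ (π.symm (u, false) < π.symm (v, true)) := not_lt.mpr (c1.trans hu).le
          simp only [c1, c2, c3, if_true, if_false, true_and, mul_one, one_mul]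
          by_cases c4 : π.symm (u, false) < π.symm (v, false)
          · have c5 : π.symm (u, true) < π.symm (v, false) := hu.trans c4
            have c6 : ¬ (π.symm (v, false) < π.symm (u, false)) := not_lt.mpr c4.le
            simp only [c4, c5, c6, if_true, and_false, if_false, hsq]
          · have c6 : π.symm (v, false) < π.symm (u, false) := by
              refine lt_of_le_of_ne (not_lt.mp c4) (fun e => ?_)
              have := π.symm.injective e
              exact huv (Prod.mk.inj this).1.symm
            simp only [c4, c6, if_false, and_true, mul_one]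
        · simp only [c1, if_false, false_and, ite_self, mul_one]
    rw [e1, e2]
    simp only [Finset.prod_mul_distrib]
    congr 1
    · refine Finset.prod_congr rfl (fun u _ => ?_)
      rw [Finset.prod_ite_eq Finset.univ u (fun _ => mu r u)]
      simp
    · rw [← Fintype.prod_prod_type' (f := fun u v =>
        if (π.symm (v, true) < π.symm (u, true) ∧ π.symm (u, true) < π.symm (v, false)
              ∧ π.symm (v, false) < π.symm (u, false)) then chi r u v else 1)]
      unfold edgeProd
      rw [← Finset.prod_filter, ← Finset.prod_filter]
      refine Finset.prod_bij (fun p _ => s(p.1, p.2)) ?_ ?_ ?_ ?_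
      · rintro ⟨u, v⟩ h
        simp only [Finset.mem_filter, Finset.mem_univ, true_and] at h ⊢
        rw [SimpleGraph.mem_edgeSet]
        exact Or.inr h
      · rintro ⟨u, v⟩ h ⟨u', v'⟩ h' e
        simp only [Finset.mem_filter, Finset.mem_univ, true_and] at h h'
        rw [Sym2.eq_iff] at e
        rcases e with ⟨e1, e2⟩ | ⟨e1, e2⟩
        · simp only at e1 e2
          rw [e1, e2]
        · simp only at e1 e2
          subst e1 e2
          exact absurd h.1 (not_lt.mpr h'.1.le)
      · intro e he
        simp only [Finset.mem_filter, Finset.mem_univ, true_and] at he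
        induction e with
        | _ u v =>
          rw [SimpleGraph.mem_edgeSet] at he
          rcases he with he | he
          · refine ⟨(v, u), ?_, Sym2.eq_swap⟩
            simp only [Finset.mem_filter, Finset.mem_univ, true_and]
            exact he
          · refine ⟨(u, v), ?_, rfl⟩
            simp only [Finset.mem_filter, Finset.mem_univ, true_and]
            exact he
      · rintro ⟨u, v⟩ _
        rfl
  rw [h1, h2, Finset.prod_mul_distrib]
  ring

theorem sum_kappa (π : Fin N ≃ V × Bool) (hπ : ∀ u, π.symm (u, true) < π.symm (u, false))
    (r : Setoid (V × Bool)) :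
    ∑ ε : V → Bool, kappa (sord π) r (sword π ε)
      = 2 ^ (Fintype.card V) * phi (igraph π) r := by
  classical
  rw [Finset.sum_congr rfl (fun ε _ => kappa_sword π hπ r ε), ← Finset.sum_mul]
  unfold phi
  rw [← mul_assoc]
  congr 1
  have h1 : ∑ ε : V → Bool, ∏ u, (mu r u * (if ε u then 1 else mu r u))
      = ∏ u : V, ∑ b : Bool, (mu r u * (if b then 1 else mu r u)) := by
    rw [Finset.prod_univ_sum, Fintype.piFinset_univ]
  rw [h1]
  unfold sep
  have h2 : (2 : ℤ) ^ (Fintype.card V) = ∏ _u : V, (2 : ℤ) := by
    rw [Finset.prod_const, Finset.card_univ]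
  rw [h2, ← Finset.prod_mul_distrib]
  refine Finset.prod_congr rfl (fun u _ => ?_)
  rw [Fintype.sum_bool]
  unfold mu
  by_cases h : r (u, true) (u, false) <;> simp [h]

theorem sum_wordPoly (π : Fin N ≃ V × Bool) (hπ : ∀ u, π.symm (u, true) < π.symm (u, false)) :
    ∑ ε : V → Bool, wordPoly (sord π) (sword π ε)
      = C (2 ^ (Fintype.card V)) * graphPoly (igraph π) := by
  classical
  unfold wordPoly graphPoly colorPoly
  rw [Finset.sum_comm, Finset.mul_sum]
  refine Finset.sum_congr rfl (fun r _ => ?_)
  rw [← Finset.sum_mul, ← map_sum, sum_kappa π hπ r, C_mul, mul_assoc]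

end Strands

end Pool.Agent.Helper74.Sl2Ext
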