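import Pool.Agent.Helper74.Sl2Ext.Defs
import Pool.Agent.Helper74.Sl2Ext.Expand

/-!
# The universal enveloping algebra of sl(2), and its representations by differential operators
-/

open Finset Polynomial

namespace Pool.Agent.Helper74.Sl2Ext

attribute [local instance 100] LieRing.ofAssociativeRing

/-! ## Relations in the enveloping algebra -/

theorem lie_EF : ⁅sE, sF⁆ = sH := by
  apply Subtype.ext
  rw [LieAlgebra.SpecialLinear.sl_bracket]
  simp [sE, sF, sH]

theorem lie_HE : ⁅sH, sE⁆ = (2 : ℂ) • sE := by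
  apply Subtype.ext
  rw [LieAlgebra.SpecialLinear.sl_bracket]
  change !![1, 0; 0, -1] * !![0, 1; 0, 0] - !![0, 1; 0, 0] * !![1, 0; 0, -1]
    = (2 : ℂ) • (!![0, 1; 0, 0] : Matrix (Fin 2) (Fin 2) ℂ)
  ext i j
  fin_cases i <;> fin_cases j <;> simp [Matrix.mul_apply, Fin.sum_univ_two] <;> norm_num

theorem lie_HF : ⁅sH, sF⁆ = -((2 : ℂ) • sF) := by
  apply Subtype.ext
  rw [LieAlgebra.SpecialLinear.sl_bracket]
  change !![1, 0; 0, -1] * !![0, 0; 1, 0] - !![0, 0; 1, 0] * !![1, 0; 0, -1]
    = -((2 : ℂ) • (!![0, 0; 1, 0] : Matrix (Fin 2) (Fin 2) ℂ))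
  ext i j
  fin_cases i <;> fin_cases j <;> simp [Matrix.mul_apply, Fin.sum_univ_two] <;> norm_num

theorem u_EF : uE * uF = uF * uE + uH := by
  have h : UniversalEnvelopingAlgebra.ι ℂ ⁅sE, sF⁆ = UniversalEnvelopingAlgebra.ι ℂ sH := by
    rw [lie_EF]
  rw [LieHom.map_lie, LieRing.of_associative_ring_bracket] at h
  unfold uE uF uH
  rw [← h]
  abel

theorem u_HE : uH * uE = uE * uH + (2 : ℂ) • uE := by
  have h : UniversalEnvelopingAlgebra.ι ℂ ⁅sH, sE⁆
      = UniversalEnvelopingAlgebra.ι ℂ ((2 : ℂ) • sE) := by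
    rw [lie_HE]
  rw [LieHom.map_lie, LieRing.of_associative_ring_bracket, map_smul] at h
  unfold uE uH
  rw [← h]
  abel

theorem u_HF : uH * uF = uF * uH - (2 : ℂ) • uF := by
  have h : UniversalEnvelopingAlgebra.ι ℂ ⁅sH, sF⁆
      = UniversalEnvelopingAlgebra.ι ℂ (-((2 : ℂ) • sF)) := by
    rw [lie_HF]
  rw [LieHom.map_lie, LieRing.of_associative_ring_bracket, map_neg, map_smul] at h
  unfold uF uH
  rw [sub_eq_add_neg, ← h]
  abel

/-! ## Homomorphisms out of the enveloping algebra -/

section Hom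

variable {A : Type} [Ring A] [Algebra ℂ A]

/-- The three relations of an sl(2)-triple. -/
structure IsTriple (e f h : A) : Prop where
  ef : e * f = f * e + h
  he : h * e = e * h + (2 : ℂ) • e
  hf : h * f = f * h - (2 : ℂ) • f

/-- The linear map from sl(2) to `A` given by a triple. -/
noncomputable def tripleLin (e f h : A) : Sl2 →ₗ[ℂ] A where
  toFun M := (M.1 0 1) • e + (M.1 1 0) • f + (M.1 0 0) • h
  map_add' M N := by
    have h : ∀ i j, (M + N).1 i j = M.1 i j + N.1 i j := fun i j => rfl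
    simp only [h, add_smul]
    abel
  map_smul' c M := by
    have h : ∀ i j, (c • M).1 i j = c * M.1 i j := fun i j => rfl
    simp only [h, RingHom.id_apply, smul_add, mul_smul]

theorem sl2_trace (M : Sl2) : M.1 1 1 = - M.1 0 0 := by
  have h : Matrix.trace M.1 = 0 := M.2
  rw [Matrix.trace_fin_two] at h
  linear_combination h

theorem tripleLin_lie {e f h : A} (H : IsTriple e f h) (M N : Sl2) :
    tripleLin e f h ⁅M, N⁆ = tripleLin e f h M * tripleLin e f h N
      - tripleLin e f h N * tripleLin e f h M := by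
  have hM := sl2_trace M
  have hN := sl2_trace N
  change (⁅M, N⁆.1 0 1) • e + (⁅M, N⁆.1 1 0) • f + (⁅M, N⁆.1 0 0) • h
    = ((M.1 0 1) • e + (M.1 1 0) • f + (M.1 0 0) • h)
      * ((N.1 0 1) • e + (N.1 1 0) • f + (N.1 0 0) • h)
      - ((N.1 0 1) • e + (N.1 1 0) • f + (N.1 0 0) • h)
      * ((M.1 0 1) • e + (M.1 1 0) • f + (M.1 0 0) • h)
  rw [LieAlgebra.SpecialLinear.sl_bracket]
  simp only [Matrix.sub_apply, Matrix.mul_apply, Fin.sum_univ_two, hM, hN, mul_add, add_mul,
    smul_mul_assoc, mul_smul_comm, H.ef, H.he, H.hf, smul_add, smul_sub, smul_smul]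
  module

/-- The homomorphism from the enveloping algebra of sl(2) given by a triple. -/
noncomputable def tripleHom {e f h : A} (H : IsTriple e f h) : U2 →ₐ[ℂ] A :=
  UniversalEnvelopingAlgebra.lift ℂ
    { tripleLin e f h with
      map_lie' := by
        intro M N
        rw [LieRing.of_associative_ring_bracket]
        exact tripleLin_lie H M N }

theorem tripleHom_E {e f h : A} (H : IsTriple e f h) : tripleHom H uE = e := by
  unfold tripleHom uE
  rw [UniversalEnvelopingAlgebra.lift_ι_apply]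
  change (sE.1 0 1) • e + (sE.1 1 0) • f + (sE.1 0 0) • h = e
  simp [sE]

theorem tripleHom_F {e f h : A} (H : IsTriple e f h) : tripleHom H uF = f := by
  unfold tripleHom uF
  rw [UniversalEnvelopingAlgebra.lift_ι_apply]
  change (sF.1 0 1) • e + (sF.1 1 0) • f + (sF.1 0 0) • h = f
  simp [sF]

theorem tripleHom_H {e f h : A} (H : IsTriple e f h) : tripleHom H uH = h := by
  unfold tripleHom uH
  rw [UniversalEnvelopingAlgebra.lift_ι_apply]
  change (sH.1 0 1) • e + (sH.1 1 0) • f + (sH.1 0 0) • h = h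
  simp [sH]

/-- The triple of the oscillator representation. -/
theorem osc_triple {X Y : A} (hXY : Y * X = X * Y + 1) :
    IsTriple ((1 / 2 : ℂ) • (X * X)) (-((1 / 2 : ℂ) • (Y * Y)))
      ((1 / 2 : ℂ) • (X * Y + Y * X)) := by
  have h1 : ∀ z : A, Y * (X * z) = X * (Y * z) + z := by
    intro z
    rw [← mul_assoc, hXY, add_mul, one_mul, mul_assoc]
  constructor
  · simp only [mul_add, add_mul, smul_mul_assoc, mul_smul_comm, mul_neg, neg_mul, mul_assoc, hXY,
      h1, mul_one, smul_add, smul_smul, smul_neg]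
    module
  · simp only [mul_add, add_mul, smul_mul_assoc, mul_smul_comm, mul_neg, neg_mul, mul_assoc, hXY,
      h1, mul_one, smul_add, smul_smul, smul_neg, one_mul]
    module
  · simp only [mul_add, add_mul, smul_mul_assoc, mul_smul_comm, mul_neg, neg_mul, mul_assoc, hXY,
      h1, mul_one, smul_add, smul_smul, smul_neg, one_mul]
    module

theorem osc_casimir {X Y : A} (hXY : Y * X = X * Y + 1) :
    tripleHom (osc_triple hXY) casimir = (-(3 / 32) : ℂ) • (1 : A) := by
  have h1 : ∀ z : A, Y * (X * z) = X * (Y * z) + z := by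
    intro z
    rw [← mul_assoc, hXY, add_mul, one_mul, mul_assoc]
  unfold casimir
  simp only [map_smul, map_add, map_mul, tripleHom_E, tripleHom_F, tripleHom_H]
  simp only [mul_add, add_mul, smul_mul_assoc, mul_smul_comm, mul_neg, neg_mul, mul_assoc, hXY,
      h1, mul_one, smul_add, smul_smul, smul_neg, one_mul]
  module

/-- The triple with highest weight `lam`. -/
theorem verma_triple {X Y : A} (hXY : Y * X = X * Y + 1) (lam : ℂ) :
    IsTriple (lam • Y - X * Y * Y) X (lam • (1 : A) - (2 : ℂ) • (X * Y)) := by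
  have h1 : ∀ z : A, Y * (X * z) = X * (Y * z) + z := by
    intro z
    rw [← mul_assoc, hXY, add_mul, one_mul, mul_assoc]
  constructor
  · simp only [mul_add, add_mul, mul_sub, sub_mul, smul_mul_assoc, mul_smul_comm, mul_neg, neg_mul,
      mul_assoc, hXY, h1, mul_one, smul_add, smul_smul, smul_neg, one_mul, smul_sub]
    module
  · simp only [mul_add, add_mul, mul_sub, sub_mul, smul_mul_assoc, mul_smul_comm, mul_neg, neg_mul,
      mul_assoc, hXY, h1, mul_one, smul_add, smul_smul, smul_neg, one_mul, smul_sub]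
    module
  · simp only [mul_add, add_mul, mul_sub, sub_mul, smul_mul_assoc, mul_smul_comm, mul_neg, neg_mul,
      mul_assoc, hXY, h1, mul_one, smul_add, smul_smul, smul_neg, one_mul, smul_sub]
    module

theorem verma_casimir {X Y : A} (hXY : Y * X = X * Y + 1) (lam : ℂ) :
    tripleHom (verma_triple hXY lam) casimir = (lam * (lam + 2) / 8) • (1 : A) := by
  have h1 : ∀ z : A, Y * (X * z) = X * (Y * z) + z := by
    intro z
    rw [← mul_assoc, hXY, add_mul, one_mul, mul_assoc]
  unfold casimir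
  simp only [map_smul, map_add, map_mul, tripleHom_E, tripleHom_F, tripleHom_H]
  simp only [mul_add, add_mul, mul_sub, sub_mul, smul_mul_assoc, mul_smul_comm, mul_neg, neg_mul,
      mul_assoc, hXY, h1, mul_one, smul_add, smul_smul, smul_neg, one_mul, smul_sub]
  module

end Hom

end Pool.Agent.Helper74.Sl2Ext
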