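import Pool.Agent.Helper74.Sl2Ext.ColorPoly

/-!
# Words in strands, their signs, and words in a Weyl algebra

A word is a list of elements of `α × Bool`; the element `(u, true)` is the first end of the strand `u`
and `(u, false)` is its second end.
-/

open Finset Polynomial

namespace Pool.Agent.Helper74.Sl2Ext

/-! ## Products over pairs of entries of a list -/

/-- The product of `t x y` over all pairs of entries `x`, `y` of the list with `x` before `y`. -/
def pairProd {β : Type} (t : β → β → ℤ) : List β → ℤ
  | [] => 1
  | x :: l => (l.map (t x)).prod * pairProd t l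

theorem pairProd_insert_two {β : Type} (t : β → β → ℤ) (x y : β) (s : List β) :
    ∀ p : List β, pairProd t (p ++ x :: y :: s)
      = pairProd t (p ++ s) * (p.map (fun z => t z x * t z y)).prod * t x y
        * (s.map (fun z => t x z * t y z)).prod
  | [] => by
      simp only [List.nil_append, pairProd, List.map_cons, List.prod_cons, List.map_nil,
        List.prod_nil, List.prod_map_mul]
      ring
  | z :: p => by
      have ih := pairProd_insert_two t x y s p
      simp only [List.cons_append, pairProd, List.map_append, List.prod_append, List.map_cons,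
        List.prod_cons] at ih ⊢
      rw [ih]
      ring

theorem pairProd_swap {β : Type} (t g : β → β → ℤ) {x y : β} (h : t x y * g x y = t y x)
    (s : List β) :
    ∀ p : List β, pairProd t (p ++ x :: y :: s) * g x y = pairProd t (p ++ y :: x :: s)
  | [] => by
      simp only [List.nil_append, pairProd, List.map_cons, List.prod_cons]
      rw [← h]
      ring
  | z :: p => by
      have ih := pairProd_swap t g h s p
      simp only [List.cons_append, pairProd]
      have hperm : ((p ++ x :: y :: s).map (t z)).prod = ((p ++ y :: x :: s).map (t z)).prod := by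
        simp only [List.map_append, List.prod_append, List.map_cons, List.prod_cons]
        ring
      rw [mul_assoc, ih, hperm]

theorem pairProd_move {β : Type} (t g : β → β → ℤ) (x : β) (s : List β) :
    ∀ (m p : List β), (∀ y ∈ m, t x y * g x y = t y x) →
      pairProd t (p ++ x :: (m ++ s)) * (m.map (g x)).prod = pairProd t (p ++ (m ++ x :: s))
  | [], p, _ => by simp
  | y :: m, p, h => by
      have h1 := pairProd_swap t g (h y (by simp)) (m ++ s) p
      have h2 := pairProd_move t g x s m (p ++ [y]) (fun z hz => h z (by simp [hz]))
      simp only [List.append_assoc, List.cons_append, List.nil_append] at h2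
      simp only [List.map_cons, List.prod_cons, List.cons_append]
      rw [← mul_assoc, h1, h2]

/-! ## Lists with one entry moved to the end -/

/-- All the lists got from a list by moving one entry to the end. -/
def moved {β : Type} : List β → List (List β)
  | [] => []
  | x :: p => (p ++ [x]) :: (moved p).map (fun q => x :: q)

theorem perm_of_mem_moved {β : Type} : ∀ {p q : List β}, q ∈ moved p → q.Perm p
  | [], q, h => by simp [moved] at h
  | x :: p, q, h => by
      simp only [moved, List.mem_cons, List.mem_map] at h
      rcases h with h | ⟨q', hq', rfl⟩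
      · subst h
        exact List.perm_append_singleton x p
      · exact List.Perm.cons x (perm_of_mem_moved hq')

/-- The sum, over the entries `x` of the list, of the product of `g x y` over the entries `y` that
follow it. -/
def tailSum {β : Type} (g : β → β → ℤ) : List β → ℤ
  | [] => 0
  | x :: p => (p.map (g x)).prod + tailSum g p

theorem sum_moved {β : Type} (t g : β → β → ℤ) (s : List β) :
    ∀ (m p : List β), m.Pairwise (fun x y => t x y * g x y = t y x) →
      ((moved m).map (fun q => pairProd t (p ++ (q ++ s)))).sum
        = pairProd t (p ++ (m ++ s)) * tailSum g m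
  | [], p, _ => by simp [moved, tailSum]
  | x :: m, p, h => by
      rw [List.pairwise_cons] at h
      have h1 := pairProd_move t g x s m p h.1
      have h2 := sum_moved t g s m (p ++ [x]) h.2
      simp only [List.append_assoc, List.cons_append, List.nil_append] at h2
      simp only [moved, List.map_cons, List.sum_cons, List.map_map, tailSum, List.cons_append,
        List.append_assoc, List.nil_append, Function.comp_def]
      rw [h2, mul_add, h1]

theorem sum_colors {β γ : Type} [Fintype γ] [DecidableEq γ] (col : β → γ) :
    ∀ p : List β, ∑ k : γ, (p.map (fun x => if k = col x then (-1 : ℤ) else 1)).prod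
      = (Fintype.card γ : ℤ) - 2 * tailSum (fun x y => if col x = col y then (-1 : ℤ) else 1) p
  | [] => by simp [tailSum]
  | x :: p => by
      have ih := sum_colors col p
      have h1 : ∀ k : γ, ((x :: p).map (fun x => if k = col x then (-1 : ℤ) else 1)).prod
          = (p.map (fun x => if k = col x then (-1 : ℤ) else 1)).prod
            - 2 * (if k = col x then
                (p.map (fun y => if col x = col y then (-1 : ℤ) else 1)).prod else 0) := by
        intro k
        simp only [List.map_cons, List.prod_cons]
        by_cases hk : k = col x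
        · subst hk
          simp
          ring
        · simp [hk]
      rw [Finset.sum_congr rfl (fun k _ => h1 k), Finset.sum_sub_distrib, ih, ← Finset.mul_sum]
      simp only [Finset.sum_ite_eq', Finset.mem_univ, if_true, tailSum]
      ring

/-! ## Signs of words -/

section Signs

variable {α : Type}

open Classical in
/-- The sign of a pair of ends of strands, `x` before `y`, relative to the standard order: it is `-1`
if the strands have the same colour and `x` comes after `y` in the standard order. -/
noncomputable def tau (ord : α → ℕ) (r : Setoid α) (x y : α × Bool) : ℤ :=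
  if r x.1 y.1 ∧ (ord y.1 < ord x.1 ∨ (x.1 = y.1 ∧ x.2 = false ∧ y.2 = true)) then -1 else 1

open Classical in
/-- `-1` if the two strands have the same colour, and `1` otherwise. -/
noncomputable def sig (r : Setoid α) (x y : α × Bool) : ℤ := if r x.1 y.1 then -1 else 1

/-- The sign of a word. -/
noncomputable def kappa (ord : α → ℕ) (r : Setoid α) (l : List (α × Bool)) : ℤ :=
  pairProd (tau ord r) l

theorem tau_sig (ord : α → ℕ) (hord : Function.Injective ord) (r : Setoid α) {x y : α × Bool}
    (hxy : x ≠ y) : tau ord r x y * sig r x y = tau ord r y x := by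
  classical
  obtain ⟨u, b⟩ := x
  obtain ⟨v, b'⟩ := y
  unfold tau sig
  by_cases hr : r u v
  · have hr' : r v u := r.symm hr
    simp only [hr, hr', true_and, if_true]
    rcases lt_trichotomy (ord u) (ord v) with h | h | h
    · have h1 : u ≠ v := fun e => by rw [e] at h; exact lt_irrefl _ h
      have h2 : v ≠ u := fun e => h1 e.symm
      simp [h, h1, not_lt.mpr h.le]
    · have h1 : u = v := hord h
      subst h1
      have hb : b ≠ b' := fun e => hxy (by rw [e])
      cases b <;> cases b' <;> simp at hb ⊢
    · have h1 : u ≠ v := fun e => by rw [e] at h; exact lt_irrefl _ h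
      have h2 : v ≠ u := fun e => h1 e.symm
      simp [h, h2, not_lt.mpr h.le]
  · have hr' : ¬ r v u := fun h => hr (r.symm h)
    simp [hr, hr']

/-- `1` for the first end of a strand and `-1` for the second. -/
def eta (b : Bool) : ℤ := if b then 1 else -1

theorem kappa_head (ord : α → ℕ) (hord : Function.Injective ord) (r : Setoid α) (u : α) (b : Bool)
    (p s : List (α × Bool)) (hp : ∀ x ∈ p, x.1 ≠ u) (hs : ∀ x ∈ s, x.1 ≠ u) :
    kappa ord r ((u, b) :: (p ++ (u, !b) :: s))
      = eta b * (p.map (sig r (u, b))).prod * kappa ord r (p ++ s) := by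
  classical
  have h1 := pairProd_move (tau ord r) (sig r) (u, b) ((u, !b) :: s) p []
    (fun y hy => tau_sig ord hord r (fun e => hp y hy (by rw [← e])))
  simp only [List.nil_append] at h1
  have h2 := pairProd_insert_two (tau ord r) (u, b) (u, !b) s p
  have hsq : (p.map (sig r (u, b))).prod * (p.map (sig r (u, b))).prod = 1 := by
    rw [← List.prod_map_mul]
    apply List.prod_eq_one
    intro z hz
    rw [List.mem_map] at hz
    obtain ⟨y, _, rfl⟩ := hz
    unfold sig
    split_ifs <;> norm_num
  have h3 : (p.map (fun z => tau ord r z (u, b) * tau ord r z (u, !b))).prod = 1 := by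
    apply List.prod_eq_one
    intro z hz
    rw [List.mem_map] at hz
    obtain ⟨y, hy, rfl⟩ := hz
    have : tau ord r y (u, b) = tau ord r y (u, !b) := by
      unfold tau
      simp [hp y hy]
    rw [this]
    unfold tau
    split_ifs <;> norm_num
  have h4 : (s.map (fun z => tau ord r (u, b) z * tau ord r (u, !b) z)).prod = 1 := by
    apply List.prod_eq_one
    intro z hz
    rw [List.mem_map] at hz
    obtain ⟨y, hy, rfl⟩ := hz
    have : tau ord r (u, b) y = tau ord r (u, !b) y := by
      unfold tau
      have : u ≠ y.1 := fun e => hs y hy e.symm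
      simp [this]
    rw [this]
    unfold tau
    split_ifs <;> norm_num
  have h5 : tau ord r (u, b) (u, !b) = eta b := by
    unfold tau eta
    cases b <;> simp
  rw [h3, h4, h5] at h2
  unfold kappa
  calc pairProd (tau ord r) ((u, b) :: (p ++ (u, !b) :: s))
      = pairProd (tau ord r) ((u, b) :: (p ++ (u, !b) :: s)) * (p.map (sig r (u, b))).prod
          * (p.map (sig r (u, b))).prod := by rw [mul_assoc, hsq, mul_one]
    _ = pairProd (tau ord r) (p ++ (u, b) :: (u, !b) :: s) * (p.map (sig r (u, b))).prod := by
          rw [h1]
    _ = _ := by rw [h2]; ring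

theorem kappa_congr (ord : α → ℕ) {r r' : Setoid α} :
    ∀ l : List (α × Bool), (∀ x ∈ l, ∀ y ∈ l, (r x.1 y.1 ↔ r' x.1 y.1)) →
      kappa ord r l = kappa ord r' l
  | [], _ => rfl
  | x :: l, h => by
      have ih := kappa_congr ord (r := r) (r' := r') l
        (fun y hy z hz => h y (by simp [hy]) z (by simp [hz]))
      unfold kappa at ih ⊢
      simp only [pairProd]
      rw [ih]
      congr 2
      apply List.map_congr_left
      intro y hy
      have h0 := h x (by simp) y (by simp [hy])
      unfold tau
      classical
      have h1 : r x.1 y.1 = r' x.1 y.1 := propext h0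
      simp only [h1]

end Signs

/-! ## Recursion for the number of coloured words -/

section Color

variable {α : Type} [Fintype α] [DecidableEq α]

theorem sum_update {κ : Type} {M : Type*} [Fintype κ] [DecidableEq κ] [AddCommMonoid M] (u : α)
    (f : (α → κ) → M) :
    ∑ c : α → κ, ∑ k : κ, f (Function.update c u k) = Fintype.card κ • ∑ c : α → κ, f c := by
  have h : ∀ c : α → κ, (∑ c' : α → κ, ∑ k : κ, if Function.update c' u k = c then f c else 0)
      = Fintype.card κ • f c := by
    intro c
    have h1 : ∀ c' : α → κ, (∑ k : κ, if Function.update c' u k = c then f c else 0)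
        = if Function.update c' u (c u) = c then f c else 0 := by
      intro c'
      rw [Finset.sum_eq_single (c u)]
      · intro k _ hk
        rw [if_neg]
        intro e
        apply hk
        rw [← e]
        simp
      · simp
    rw [Finset.sum_congr rfl (fun c' _ => h1 c'), ← Finset.sum_filter, Finset.sum_const]
    congr 1
    have : (Finset.filter (fun c' : α → κ => Function.update c' u (c u) = c) Finset.univ)
        = (Finset.univ : Finset κ).image (fun k => Function.update c u k) := by
      ext c'
      simp only [Finset.mem_filter, Finset.mem_univ, true_and, Finset.mem_image]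
      constructor
      · intro e
        refine ⟨c' u, ?_⟩
        rw [← e]
        simp
      · rintro ⟨k, rfl⟩
        simp
    rw [this, Finset.card_image_of_injective]
    · rfl
    · intro k k' e
      have := congrFun e u
      simpa using this
  calc ∑ x : α → κ, ∑ y : κ, f (Function.update x u y)
      = ∑ x : α → κ, ∑ y : κ, ∑ c : α → κ, (if Function.update x u y = c then f c else 0) := by
        refine Finset.sum_congr rfl (fun x _ => Finset.sum_congr rfl (fun y _ => ?_))
        simp
    _ = ∑ x : α → κ, ∑ c : α → κ, ∑ y : κ, (if Function.update x u y = c then f c else 0) := by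
        refine Finset.sum_congr rfl (fun x _ => Finset.sum_comm)
    _ = ∑ c : α → κ, ∑ x : α → κ, ∑ y : κ, (if Function.update x u y = c then f c else 0) :=
        Finset.sum_comm
    _ = ∑ c : α → κ, Fintype.card κ • f c := Finset.sum_congr rfl (fun c _ => h c)
    _ = _ := by rw [Finset.smul_sum]

theorem sum_list_sum {ι κ : Type} {M : Type*} [Fintype ι] [AddCommMonoid M] (f : ι → κ → M) :
    ∀ L : List κ, ∑ i, (L.map (f i)).sum = (L.map (fun x => ∑ i, f i x)).sum
  | [] => by simp
  | x :: L => by
      have ih := sum_list_sum f L
      simp only [List.map_cons, List.sum_cons, Finset.sum_add_distrib, ih]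

omit [Fintype α] in
theorem kappa_sum_head (ord : α → ℕ) (hord : Function.Injective ord) {q : ℕ} (c : α → Fin q)
    (u : α) (b : Bool) (p s : List (α × Bool)) (hp : ∀ x ∈ p, x.1 ≠ u) (hs : ∀ x ∈ s, x.1 ≠ u)
    (hnd : p.Nodup) :
    ∑ k : Fin q, kappa ord (Setoid.ker (Function.update c u k)) ((u, b) :: (p ++ (u, !b) :: s))
      = eta b * (q * kappa ord (Setoid.ker c) (p ++ s)
        - 2 * ((moved p).map (fun p' => kappa ord (Setoid.ker c) (p' ++ s))).sum) := by
  classical
  have h1 : ∀ k : Fin q,
      kappa ord (Setoid.ker (Function.update c u k)) ((u, b) :: (p ++ (u, !b) :: s))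
        = eta b * kappa ord (Setoid.ker c) (p ++ s)
          * (p.map (fun x => if k = c x.1 then (-1 : ℤ) else 1)).prod := by
    intro k
    rw [kappa_head ord hord _ u b p s hp hs]
    have e1 : kappa ord (Setoid.ker (Function.update c u k)) (p ++ s)
        = kappa ord (Setoid.ker c) (p ++ s) := by
      apply kappa_congr
      have hmem : ∀ x ∈ p ++ s, x.1 ≠ u := by
        intro x hx
        rw [List.mem_append] at hx
        rcases hx with hx | hx
        · exact hp x hx
        · exact hs x hx
      intro x hx y hy
      rw [Setoid.ker_def, Setoid.ker_def, Function.update_of_ne (hmem x hx),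
        Function.update_of_ne (hmem y hy)]
    have e2 : p.map (sig (Setoid.ker (Function.update c u k)) (u, b))
        = p.map (fun x => if k = c x.1 then (-1 : ℤ) else 1) := by
      apply List.map_congr_left
      intro y hy
      unfold sig
      have : (Setoid.ker (Function.update c u k)) (u, b).1 y.1 = (k = c y.1) := by
        rw [Setoid.ker_def, Function.update_self, Function.update_of_ne (hp y hy)]
      simp only [this]
    rw [e1, e2]
    ring
  rw [Finset.sum_congr rfl (fun k _ => h1 k), ← Finset.mul_sum, sum_colors (fun x => c x.1) p]
  have h2 := sum_moved (tau ord (Setoid.ker c)) (sig (Setoid.ker c)) s p [] (by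
    apply hnd.imp
    intro x y hxy
    exact tau_sig ord hord _ hxy)
  simp only [List.nil_append] at h2
  have h3 : (sig (Setoid.ker c) : α × Bool → α × Bool → ℤ)
      = fun x y => if c x.1 = c y.1 then (-1 : ℤ) else 1 := by
    funext x y
    unfold sig
    have : (Setoid.ker c) x.1 y.1 = (c x.1 = c y.1) := by rw [Setoid.ker_def]
    simp only [this]
  rw [← h3]
  unfold kappa
  rw [h2, Fintype.card_fin]
  ring

/-- The polynomial that counts coloured words with their signs. -/
noncomputable def wordPoly (ord : α → ℕ) (l : List (α × Bool)) : ℤ[X] :=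
  colorPoly (fun r => kappa ord r l)

theorem wordPoly_rec (ord : α → ℕ) (hord : Function.Injective ord)
    (u : α) (b : Bool) (p s : List (α × Bool)) (hp : ∀ x ∈ p, x.1 ≠ u) (hs : ∀ x ∈ s, x.1 ≠ u)
    (hnd : p.Nodup) :
    X * wordPoly ord ((u, b) :: (p ++ (u, !b) :: s))
      = C (eta b) * (X * wordPoly ord (p ++ s)
        - C 2 * ((moved p).map (fun p' => wordPoly ord (p' ++ s))).sum) := by
  apply poly_ext_nat
  intro q
  have hlist : ∀ L : List (List (α × Bool)),
      ((L.map (fun p' => wordPoly ord (p' ++ s))).sum).eval (q : ℤ)
        = (L.map (fun p' => (wordPoly ord (p' ++ s)).eval (q : ℤ))).sum := by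
    intro L
    induction L with
    | nil => simp
    | cons x L ih => simp only [List.map_cons, List.sum_cons, Polynomial.eval_add, ih]
  simp only [Polynomial.eval_mul, Polynomial.eval_X, Polynomial.eval_sub, Polynomial.eval_C, hlist]
  have hev : ∀ l : List (α × Bool), (wordPoly ord l).eval (q : ℤ)
      = ∑ c : α → Fin q, kappa ord (Setoid.ker c) l := by
    intro l
    exact colorPoly_eval _ q
  simp only [hev]
  have h1 := sum_update (κ := Fin q) u
    (fun c => kappa ord (Setoid.ker c) ((u, b) :: (p ++ (u, !b) :: s)))
  rw [Fintype.card_fin, nsmul_eq_mul] at h1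
  rw [← h1, Finset.sum_congr rfl (fun c _ => kappa_sum_head ord hord c u b p s hp hs hnd),
    ← Finset.mul_sum, Finset.sum_sub_distrib, ← Finset.mul_sum, ← Finset.mul_sum]
  rw [sum_list_sum]

end Color

/-! ## Words in a Weyl algebra -/

section Weyl

variable {A : Type*} [Ring A]

/-- The four linear elements at the ends of a strand. -/
def el (X Y : A) : Bool → Bool → A
  | true, true => X
  | true, false => Y
  | false, true => Y
  | false, false => -X

/-- Sum of the products of all the lists got by moving one entry to the end. -/
def movedSum : List A → A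
  | [] => 0
  | x :: p => p.prod * x + x * movedSum p

theorem weyl_move {X Y : A} (hXY : Y * X = X * Y + 1) :
    ∀ L : List A, (∀ z ∈ L, ∃ a b : ℤ, z = a • X + b • Y) →
      X * L.prod * Y - Y * L.prod * X = -L.prod - movedSum L
  | [], _ => by
      simp only [List.prod_nil, movedSum, mul_one, hXY]
      noncomm_ring
  | z :: L, h => by
      have ih := weyl_move hXY L (fun y hy => h y (by simp [hy]))
      obtain ⟨a, b, hz⟩ := h z (by simp)
      have h1 : X * z = z * X - b • (1 : A) := by
        rw [hz]
        simp only [mul_add, add_mul, mul_smul_comm, smul_mul_assoc, hXY, smul_add]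
        abel
      have h2 : Y * z = z * Y + a • (1 : A) := by
        rw [hz]
        simp only [mul_add, add_mul, mul_smul_comm, smul_mul_assoc, hXY, smul_add]
        abel
      simp only [List.prod_cons, movedSum]
      have e1 : X * (z * L.prod) * Y = z * (X * L.prod * Y) - b • (L.prod * Y) := by
        rw [← mul_assoc X z, h1, sub_mul, sub_mul, smul_mul_assoc, one_mul, smul_mul_assoc]
        simp only [mul_assoc]
      have e2 : Y * (z * L.prod) * X = z * (Y * L.prod * X) + a • (L.prod * X) := by
        rw [← mul_assoc Y z, h2, add_mul, add_mul, smul_mul_assoc, one_mul, smul_mul_assoc]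
        simp only [mul_assoc]
      have e3 : L.prod * z = a • (L.prod * X) + b • (L.prod * Y) := by
        rw [hz, mul_add, mul_smul_comm, mul_smul_comm]
      rw [e1, e2, e3]
      have e4 : z * (X * L.prod * Y) - b • (L.prod * Y) - (z * (Y * L.prod * X) + a • (L.prod * X))
          = z * (X * L.prod * Y - Y * L.prod * X) - b • (L.prod * Y) - a • (L.prod * X) := by
        rw [mul_sub]; abel
      rw [e4, ih, mul_sub, mul_neg]
      abel

theorem el_lin (X Y : A) (b k : Bool) : ∃ m n : ℤ, el X Y b k = m • X + n • Y := by
  cases b <;> cases k
  · exact ⟨-1, 0, by simp [el]⟩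
  · exact ⟨0, 1, by simp [el]⟩
  · exact ⟨0, 1, by simp [el]⟩
  · exact ⟨1, 0, by simp [el]⟩

/-- The product of a word in the Weyl algebra, given the choice at each strand. -/
def wprod {α : Type} (X Y : A) (s : α → Bool) (l : List (α × Bool)) : A :=
  (l.map (fun x => el X Y x.2 (s x.1))).prod

theorem movedSum_map {β : Type} (f : β → A) :
    ∀ p : List β, movedSum (p.map f) = ((moved p).map (fun q => (q.map f).prod)).sum
  | [] => rfl
  | x :: p => by
      have ih := movedSum_map f p
      simp only [List.map_cons, movedSum, moved, List.sum_cons, List.map_append, List.map_nil,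
        List.prod_append, List.prod_cons, List.prod_nil, mul_one, List.map_map, Function.comp_def,
        ih]
      rw [List.sum_map_mul_left]

variable {α : Type} [Fintype α] [DecidableEq α]

/-- The value of a word in the Weyl algebra. -/
def wsum (X Y : A) (l : List (α × Bool)) : A := ∑ s : α → Bool, wprod X Y s l

theorem wsum_rec {X Y : A} (hXY : Y * X = X * Y + 1)
    (u : α) (b : Bool) (p s : List (α × Bool)) (hp : ∀ x ∈ p, x.1 ≠ u) (hs : ∀ x ∈ s, x.1 ≠ u) :
    2 * wsum X Y ((u, b) :: (p ++ (u, !b) :: s))
      = (eta b : A) * (-(wsum X Y (p ++ s)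
        + ((moved p).map (fun p' => wsum X Y (p' ++ s))).sum)) := by
  have h0 : 2 * wsum X Y ((u, b) :: (p ++ (u, !b) :: s))
      = ∑ t : α → Bool, ∑ k : Bool,
          wprod X Y (Function.update t u k) ((u, b) :: (p ++ (u, !b) :: s)) := by
    have h := sum_update (κ := Bool) u
      (fun t => wprod X Y t ((u, b) :: (p ++ (u, !b) :: s)))
    rw [Fintype.card_bool, nsmul_eq_mul, Nat.cast_ofNat] at h
    exact h.symm
  have h1 : ∀ t : α → Bool, ∑ k : Bool,
        wprod X Y (Function.update t u k) ((u, b) :: (p ++ (u, !b) :: s))
      = (eta b : A) * (-(wprod X Y t (p ++ s)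
        + ((moved p).map (fun p' => wprod X Y t (p' ++ s))).sum)) := by
    intro t
    have hm : ∀ (l : List (α × Bool)) (k : Bool), (∀ x ∈ l, x.1 ≠ u) →
        wprod X Y (Function.update t u k) l = wprod X Y t l := by
      intro l k hl
      unfold wprod
      congr 1
      apply List.map_congr_left
      intro x hx
      rw [Function.update_of_ne (hl x hx)]
    have h2 : ∀ k : Bool, wprod X Y (Function.update t u k) ((u, b) :: (p ++ (u, !b) :: s))
        = el X Y b k * wprod X Y t p * el X Y (!b) k * wprod X Y t s := by
      intro k
      have e : wprod X Y (Function.update t u k) ((u, b) :: (p ++ (u, !b) :: s))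
          = el X Y b k * (wprod X Y (Function.update t u k) p * (el X Y (!b) k
            * wprod X Y (Function.update t u k) s)) := by
        unfold wprod
        simp only [List.map_cons, List.prod_cons, List.map_append, List.prod_append,
          Function.update_self]
      rw [e, hm p k hp, hm s k hs]
      simp only [mul_assoc]
    simp only [Fintype.sum_bool, h2]
    have h3 := weyl_move hXY (p.map (fun x => el X Y x.2 (t x.1))) (by
      intro z hz
      rw [List.mem_map] at hz
      obtain ⟨x, _, rfl⟩ := hz
      exact el_lin X Y _ _)
    rw [movedSum_map] at h3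
    have h4 : ((moved p).map (fun p' => wprod X Y t (p' ++ s))).sum
        = ((moved p).map (fun q => (q.map (fun x => el X Y x.2 (t x.1))).prod)).sum
          * wprod X Y t s := by
      rw [← List.sum_map_mul_right]
      congr 1
      apply List.map_congr_left
      intro q _
      unfold wprod
      rw [List.map_append, List.prod_append]
    have h5 : wprod X Y t (p ++ s) = (p.map (fun x => el X Y x.2 (t x.1))).prod * wprod X Y t s := by
      unfold wprod
      rw [List.map_append, List.prod_append]
    rw [h4, h5, ← add_mul, ← add_mul, ← neg_mul, ← mul_assoc]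
    have h6 : -((p.map (fun x => el X Y x.2 (t x.1))).prod
        + ((moved p).map (fun q => (q.map (fun x => el X Y x.2 (t x.1))).prod)).sum)
        = X * (p.map (fun x => el X Y x.2 (t x.1))).prod * Y
          - Y * (p.map (fun x => el X Y x.2 (t x.1))).prod * X := by
      rw [h3]; abel
    rw [h6]
    have h7 : wprod X Y t p = (p.map (fun x => el X Y x.2 (t x.1))).prod := rfl
    rw [h7]
    congr 1
    cases b
    · simp only [el, eta, Bool.not_false]
      push_cast
      noncomm_ring
    · simp only [el, eta, Bool.not_true]
      push_cast
      noncomm_ring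
  rw [h0, Finset.sum_congr rfl (fun t _ => h1 t), ← Finset.mul_sum, Finset.sum_neg_distrib,
    Finset.sum_add_distrib, sum_list_sum]
  rfl

/-- A word is good if no end occurs twice and with each end the other end of the strand occurs. -/
def Good (l : List (α × Bool)) : Prop := l.Nodup ∧ ∀ x ∈ l, (x.1, !x.2) ∈ l

omit [Fintype α] [DecidableEq α] in
theorem Good.perm {l l' : List (α × Bool)} (h : Good l) (hp : l.Perm l') : Good l' :=
  ⟨hp.nodup_iff.mp h.1, fun x hx => hp.mem_iff.mp (h.2 x (hp.mem_iff.mpr hx))⟩

theorem main_words (ord : α → ℕ) (hord : Function.Injective ord) {X Y : A}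
    (hXY : Y * X = X * Y + 1) :
    ∀ (m : ℕ) (l : List (α × Bool)), l.length = 2 * m → Good l →
      ((((wordPoly ord l).eval (-2) : ℤ)) : A)
        = (((-1) ^ (Fintype.card α) * (-2) ^ m : ℤ) : A) * wsum X Y l := by
  intro m
  induction m with
  | zero =>
    intro l hl _
    have hl' : l = [] := List.eq_nil_of_length_eq_zero (by simpa using hl)
    subst hl'
    have h1 : wordPoly ord ([] : List (α × Bool)) = Polynomial.X ^ (Fintype.card α) := by
      apply poly_ext_nat
      intro q
      unfold wordPoly
      rw [colorPoly_eval]
      simp [kappa, pairProd]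
    have h2 : wsum X Y ([] : List (α × Bool)) = ((2 ^ (Fintype.card α) : ℤ) : A) := by
      simp [wsum, wprod]
    rw [h1, h2, Polynomial.eval_pow, Polynomial.eval_X, pow_zero, mul_one, ← Int.cast_mul]
    congr 1
    rw [← mul_pow]
    norm_num
  | succ m ih =>
    intro l hl hgood
    match l, hl, hgood with
    | [], hl, _ => simp at hl
    | (u, b) :: l', hl, hgood =>
      have hmem : (u, !b) ∈ l' := by
        have := hgood.2 (u, b) (by simp)
        simp only [List.mem_cons, Prod.mk.injEq, true_and] at this
        rcases this with h | h
        · cases b <;> simp at h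
        · exact h
      obtain ⟨p, s, rfl⟩ := List.append_of_mem hmem
      have hnd : ((u, b) :: (p ++ (u, !b) :: s)).Nodup := hgood.1
      rw [List.nodup_cons] at hnd
      obtain ⟨hub, hnd'⟩ := hnd
      have hnd'' : ((u, !b) :: (p ++ s)).Nodup := List.perm_middle.nodup_iff.mp hnd'
      rw [List.nodup_cons] at hnd''
      obtain ⟨hunb, hps⟩ := hnd''
      have hub' : (u, b) ∉ p ++ s := by
        intro h
        apply hub
        rw [List.mem_append] at h ⊢
        rcases h with h | h
        · exact Or.inl h
        · exact Or.inr (List.mem_cons_of_mem _ h)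
      have hlab : ∀ x ∈ p ++ s, x.1 ≠ u := by
        rintro ⟨v, b'⟩ hx hv
        simp only at hv
        subst hv
        by_cases hb : b' = b
        · subst hb; exact hub' hx
        · have : b' = !b := by cases b <;> cases b' <;> simp_all
          rw [this] at hx
          exact hunb hx
      have hp : ∀ x ∈ p, x.1 ≠ u := fun x hx => hlab x (List.mem_append_left _ hx)
      have hs : ∀ x ∈ s, x.1 ≠ u := fun x hx => hlab x (List.mem_append_right _ hx)
      have hgood' : Good (p ++ s) := by
        refine ⟨hps, fun x hx => ?_⟩
        have hx1 := hlab x hx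
        have h1 : x ∈ (u, b) :: (p ++ (u, !b) :: s) := by
          rw [List.mem_append] at hx
          rcases hx with hx | hx <;> simp [hx]
        have h2 := hgood.2 x h1
        simp only [List.mem_cons, List.mem_append, Prod.mk.injEq] at h2
        rw [List.mem_append]
        rcases h2 with h2 | h2 | h2 | h2
        · exact absurd h2.1 hx1
        · exact Or.inl h2
        · exact absurd h2.1 hx1
        · exact Or.inr h2
      have hlen : (p ++ s).length = 2 * m := by
        simp only [List.length_cons, List.length_append] at hl ⊢
        omega
      have hpnd : p.Nodup := (List.nodup_append.mp hps).1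
      have r1 := wordPoly_rec ord hord u b p s hp hs hpnd
      have r2 := wsum_rec hXY u b p s hp hs
      have r1' := congrArg (Polynomial.eval (-2 : ℤ)) r1
      have hlist : ∀ L : List (List (α × Bool)),
          ((L.map (fun p' => wordPoly ord (p' ++ s))).sum).eval (-2 : ℤ)
            = (L.map (fun p' => (wordPoly ord (p' ++ s)).eval (-2 : ℤ))).sum := by
        intro L
        induction L with
        | nil => simp
        | cons x L ih => simp only [List.map_cons, List.sum_cons, Polynomial.eval_add, ih]
      simp only [Polynomial.eval_mul, Polynomial.eval_X, Polynomial.eval_sub, Polynomial.eval_C,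
        hlist] at r1'
      have r1'' : (wordPoly ord ((u, b) :: (p ++ (u, !b) :: s))).eval (-2 : ℤ)
          = eta b * ((wordPoly ord (p ++ s)).eval (-2 : ℤ)
            + ((moved p).map (fun p' => (wordPoly ord (p' ++ s)).eval (-2 : ℤ))).sum) := by
        have : (-2 : ℤ) * (wordPoly ord ((u, b) :: (p ++ (u, !b) :: s))).eval (-2 : ℤ)
            = (-2 : ℤ) * (eta b * ((wordPoly ord (p ++ s)).eval (-2 : ℤ)
              + ((moved p).map (fun p' => (wordPoly ord (p' ++ s)).eval (-2 : ℤ))).sum)) := by
          rw [r1']; ring
        exact mul_left_cancel₀ (by norm_num) this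
      have hcast : ∀ L : List (List (α × Bool)), (∀ p' ∈ L, Good (p' ++ s) ∧
            (p' ++ s).length = 2 * m) →
          (((L.map (fun p' => (wordPoly ord (p' ++ s)).eval (-2 : ℤ))).sum : ℤ) : A)
            = (((-1) ^ (Fintype.card α) * (-2) ^ m : ℤ) : A)
              * (L.map (fun p' => wsum X Y (p' ++ s))).sum := by
        intro L
        induction L with
        | nil => simp
        | cons x L ihL =>
          intro hL
          simp only [List.map_cons, List.sum_cons, Int.cast_add, mul_add]
          rw [ihL (fun p' hp' => hL p' (by simp [hp'])),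
            ih (x ++ s) (hL x (by simp)).2 (hL x (by simp)).1]
      have hmoved : ∀ p' ∈ moved p, Good (p' ++ s) ∧ (p' ++ s).length = 2 * m := by
        intro p' hp'
        have hperm : (p' ++ s).Perm (p ++ s) := (perm_of_mem_moved hp').append_right s
        exact ⟨hgood'.perm hperm.symm, by rw [hperm.length_eq, hlen]⟩
      rw [r1'', Int.cast_mul, Int.cast_add, ih (p ++ s) hlen hgood', hcast _ hmoved, ← mul_add,
        pow_succ]
      have e1 : (((-1) ^ (Fintype.card α) * ((-2) ^ m * (-2)) : ℤ) : A)
            * wsum X Y ((u, b) :: (p ++ (u, !b) :: s))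
          = (((-1) ^ (Fintype.card α) * (-2) ^ m : ℤ) : A)
            * (-(2 * wsum X Y ((u, b) :: (p ++ (u, !b) :: s)))) := by
        rw [← mul_assoc, Int.cast_mul, mul_assoc]
        congr 1
        push_cast
        noncomm_ring
      rw [e1, r2]
      rw [← mul_assoc, ← mul_neg, neg_neg, ← mul_assoc]
      congr 1
      rw [← Int.cast_mul, ← Int.cast_mul, mul_comm]

end Weyl

end Pool.Agent.Helper74.Sl2Ext
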